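import Pool.Agent.P.MP_e94e4b_nt.OA.If

/-! Step COREW. -/

namespace Pool.Agent.P.MP_e94e4b_nt.OA

open Polynomial Finset Pool.Agent.P.MP_8be758_nt.C2
open scoped Classical

theorem COREW_num (q T c Q : ℝ) (d D1 : ℕ) (hq : 2 ≤ q) (hc : 0 ≤ c) (hQ : 0 ≤ Q)
    (h : T * q ^ ((d + 1) / 2 + D1) ≤ Q * (c * √(q ^ d))) : T ≤ Q * (c / q ^ D1) := by
  have hq0 : (0 : ℝ) < q := by linarith
  have h1 : √(q ^ d) ≤ q ^ ((d + 1) / 2) := by
    refine Real.sqrt_le_iff.2 ⟨by positivity, ?_⟩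
    rw [← pow_mul]
    exact pow_le_pow_right₀ (by linarith) (by omega)
  have h2 : T * q ^ D1 ≤ Q * c := by
    have hp : (0 : ℝ) < q ^ ((d + 1) / 2) := by positivity
    refine le_of_mul_le_mul_right ?_ hp
    calc T * q ^ D1 * q ^ ((d + 1) / 2) = T * q ^ ((d + 1) / 2 + D1) := by rw [pow_add]; ring
      _ ≤ Q * (c * √(q ^ d)) := h
      _ ≤ Q * (c * q ^ ((d + 1) / 2)) := by gcongr
      _ = _ := by ring
  rw [← mul_div_assoc, le_div_iff₀ (by positivity)]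
  exact h2

theorem p_COREW :
    S_COREW := by
  intro k _ _ _ t U V V1 P Mm wt n r H D1 L0 hU hne hr hV p1 p2 p3 p4 hVU hHP hDP hP hw1 hw2
    n1 n2 n3 n4
  have h2 : (2 : k[X]) = 0 := CharTwo.two_eq_zero
  have hq : (2 : ℝ) ≤ (Nat.card k : ℝ) := by exact_mod_cast two_le_card (k := k)
  have hV1 : V1 ≠ 0 := by rintro rfl; exact p3 (dvd_zero P)
  obtain ⟨s, hs⟩ : ∃ s : Finset k[X], s = {P} := ⟨_, rfl⟩
  have hsP : ∀ P' ∈ s, P' = P := fun P' h => by rwa [hs, mem_singleton] at h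
  have hV' : V = V1 * ∏ P ∈ s, P := by rw [hs, prod_singleton, hV]
  have hsd : ∑ P ∈ s, P.natDegree = P.natDegree := by rw [hs, sum_singleton]
  have hsc : s.card = 1 := by rw [hs, card_singleton]
  have hd := fun i (hi : i ∈ t) => W.dec (p_FORM p_PF p_INFY) (p_SPLIT p_LOC) (p_DLOC p_LAL)
    (hU i hi).1 hV1 hV' ((hU i hi).2 ▸ hVU) (fun P' hP' => by
      rw [hsP P' hP']; exact ⟨p1, p2, p3, (hP i hi).1⟩) (e := 1) one_ne_zero
  choose! a χ Cn c u b ha1 ha2 hχ1 hχ2 hCn hcb hdec using hd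
  obtain ⟨β, hβ⟩ : ∃ β : k[X] → ℝ, ∀ z, β z = ∏ i ∈ t, (psi (res ((U i + z ^ 2) * V ^ 2) (Cn i)) *
      ∏ P ∈ s, lk P (c i P) (u i P + b i P * z)) := ⟨_, fun _ => rfl⟩
  have hβ1 : ∀ x, |β x| ≤ 1 := fun x => by
    rw [hβ, Finset.abs_prod]
    refine prod_le_one (fun _ _ => abs_nonneg _) fun i _ => ?_
    rw [abs_mul, abs_psi, one_mul, Finset.abs_prod]
    exact prod_le_one (fun _ _ => abs_nonneg _) (fun _ _ => abs_lk_le _ _ _)
  have hV0 : V ≠ 0 := by rw [hV]; exact mul_ne_zero hV1 p1.ne_zero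
  have hdV : V.natDegree = V1.natDegree + P.natDegree := by
    rw [hV, natDegree_mul hV1 p1.ne_zero]
  obtain ⟨ξ, hξ⟩ : ∃ ξ : k[X] → ℝ, ∀ z, ξ z = ∏ i ∈ t, χ i z := ⟨_, fun _ => rfl⟩
  have hξ2 : ∀ z, ξ z = 1 ∨ ξ z = -1 := fun z => hξ z ▸ DEC2_sign t _ fun i hi => hχ2 i hi z
  have hterm : ∑ x ∈ low k L0, wt x * ∏ i ∈ t, mu (eo (U i + x ^ 2) V) =
      ∑ x ∈ low k L0, (wt x * ∏ i ∈ t, a i x) * (ξ x * β x) := by
    refine sum_congr rfl fun x hx => ?_
    have h1 := natDegree_le_of_mem_low hx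
    rw [mul_assoc, hβ, hξ, ← prod_mul_distrib, ← prod_mul_distrib]
    congr 1
    exact prod_congr rfl fun i hi => by
      rw [← hdec i hi x (by rw [(hU i hi).2]; omega), pow_one]
  have hVM := natDegree_mul_le (p := V1) (q := Mm)
  have hv := p_VDC k (fun x => wt x * ∏ i ∈ t, a i x) (fun x => ξ x * β x) (V1 * Mm) L0 H
    (by omega)
    (fun x => by
      rw [abs_mul, Finset.abs_prod]
      exact mul_le_one₀ (hw1 x) (prod_nonneg fun _ _ => abs_nonneg _)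
        (prod_le_one (fun _ _ => abs_nonneg _) fun i hi => ha1 i hi x))
    fun x y => by
      have e1 : wt (x + V1 * Mm * y) = wt x := by
        rw [show x + V1 * Mm * y = x + Mm * (V1 * y) by ring, hw2]
      have e2 : ∏ i ∈ t, a i (x + V1 * Mm * y) = ∏ i ∈ t, a i x :=
        prod_congr rfl fun i hi => by rw [mul_assoc, ha2 i hi]
      simp only [e1, e2]
  have habs : ∀ h : k[X], |∑ x ∈ low k L0, ξ x * β x * (ξ (x + h) * β (x + h))| =
      |∑ x ∈ low k L0, β x * β (x + h)| := fun h => by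
    rw [sum_congr rfl (g := fun x => ξ h * (β x * β (x + h))) fun x _ => ?_, ← mul_sum, abs_mul]
    · rcases hξ2 h with h | h <;> simp [h]
    · rw [show ξ (x + h) = ξ x * ξ h by
        rw [hξ, hξ, hξ, ← prod_mul_distrib]; exact prod_congr rfl fun i hi => hχ1 i hi x h]
      rcases hξ2 x with h | h <;> rw [h] <;> ring
  set Q : ℝ := (Nat.card k : ℝ) ^ L0 with hQ
  have hQ0 : 0 < Q := by positivity
  set η : ℝ := (14 * r + 9) / (Nat.card k : ℝ) ^ D1 with hη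
  have hone : ∀ y ∈ low k H, |∑ x ∈ low k L0, β x * β (x + V1 * Mm * y)| ≤
      Q * (if ∃ p ∈ t ×ˢ t, P ∣ U p.1 + U p.2 + (V1 * Mm * y) ^ 2 then 1 else 0) + Q * η := by
    intro y hy
    split_ifs with hbad
    · refine (abs_sum_le_sum_abs _ _).trans ((sum_le_card_nsmul _ _ (1 : ℝ) fun x _ => ?_).trans ?_)
      · rw [abs_mul]
        exact mul_le_one₀ (hβ1 _) (abs_nonneg _) (hβ1 _)
      · rw [card_low, nsmul_eq_mul, Nat.cast_pow]
        exact le_add_of_nonneg_right (by positivity)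
    · have h1 := natDegree_le_of_mem_low hy
      have h3 := natDegree_mul_le (p := V1 * Mm) (q := y)
      obtain ⟨i0, o1⟩ := hne
      have h4 := W.cor p_INF p_COMP p_LOC t U Cn V (V1 * Mm * y) s c u b (n := n) (L0 := L0)
        (L := (∑ P ∈ s, P.natDegree + 1) / 2 + D1) (dh := V1.natDegree + Mm.natDegree + H)
        (fun i hi => ⟨(hU i hi).1, (hU i hi).2, (hU i hi).2 ▸ hCn i hi⟩) hV0
        (fun P' hP' => by
          refine ⟨?_, ?_, ⟨i0, o1, (hcb i0 o1 P' hP').1 odd_one⟩,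
            fun i hi => (hcb i hi P' hP').2, fun i hi j hj => ?_⟩ <;> rw [hsP P' hP']
          · exact p1
          · exact p2
          · exact ⟨(hP i hi).2 j hj, fun h => hbad ⟨(i, j), by simp [hi, hj], h⟩⟩)
        (by omega) (by omega) (by omega) (by omega) n1 n2 (by omega) (by omega) β hβ
      rw [mul_zero, zero_add]
      refine (COREW_num _ _ _ Q _ D1 hq (by positivity) hQ0.le h4).trans ?_
      have : (t.card : ℝ) ≤ r := by exact_mod_cast hr
      rw [hη, hsc, pow_one]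
      gcongr
  have hbad : ((low k H).filter fun y =>
      ∃ p ∈ t ×ˢ t, P ∣ U p.1 + U p.2 + (V1 * Mm * y) ^ 2).card ≤ r ^ 2 := by
    have hx := fun y (hy : y ∈ (low k H).filter fun y =>
      ∃ p ∈ t ×ˢ t, P ∣ U p.1 + U p.2 + (V1 * Mm * y) ^ 2) => (mem_filter.1 hy).2
    choose! f f1 f2 using hx
    refine (card_le_card_of_injOn f f1 fun x hx y hy e => ?_).trans (by
      rw [card_product, sq]; gcongr)
    have d1 := dvd_add (f2 x hx) (e ▸ f2 y hy)
    rw [show U (f x).1 + U (f x).2 + (V1 * Mm * x) ^ 2 + (U (f x).1 + U (f x).2 +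
      (V1 * Mm * y) ^ 2) = (V1 * Mm * (x - y)) ^ 2 by
        linear_combination (U (f x).1 + U (f x).2 + (V1 * Mm) ^ 2 * x * y) * h2] at d1
    have d2 : ¬ P ∣ V1 * Mm := fun h => (p2.prime.dvd_or_dvd h).elim p3 p4
    exact sub_eq_zero.1 (eq_zero_of_mem_low (sub_mem_low (mem_filter.1 hx).1 (mem_filter.1 hy).1)
      ((p2.prime.dvd_or_dvd (p2.prime.dvd_of_dvd_pow d1)).resolve_left d2) hHP)
  have hsum := sum_le_sum hone
  rw [sum_add_distrib, ← mul_sum, sum_boole, sum_const, card_low, nsmul_eq_mul,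
    Nat.cast_pow] at hsum
  simp only [habs] at hv
  rw [hterm]
  have hH : (0 : ℝ) < (Nat.card k : ℝ) ^ H := by positivity
  have hK1 : (r : ℝ) ^ 2 ≤ r ^ 2 / (Nat.card k : ℝ) ^ H * (Nat.card k : ℝ) ^ H :=
    (div_mul_cancel₀ _ hH.ne').ge
  have hK2 := ((Nat.cast_le (α := ℝ)).2 hbad).trans (by push_cast; exact hK1)
  refine le_of_mul_le_mul_right (hv.trans ((mul_le_mul_of_nonneg_left (hsum.trans (add_le_add
    (mul_le_mul_of_nonneg_left hK2 hQ0.le) le_rfl)) hQ0.le).trans_eq (by ring))) hH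

end Pool.Agent.P.MP_e94e4b_nt.OA
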