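import Pool.Agent.P.MP_e94e4b_nt.OA.If

/-! Step EXP. -/

namespace Pool.Agent.P.MP_e94e4b_nt.OA

open Polynomial Finset Pool.Agent.P.MP_8be758_nt.C2
open scoped Classical

section
variable {k : Type} [Field k] [Finite k]

theorem EXP_monic {l : Finset k[X]} (h : ∀ P ∈ l, P.Monic ∧ Irreducible P) :
    (∏ P ∈ l, P).Monic := monic_prod_of_monic _ _ fun P hP => (h P hP).1

theorem EXP_deg {l : Finset k[X]} (h : ∀ P ∈ l, P.Monic ∧ Irreducible P) :
    (∏ P ∈ l, P).natDegree = dg l := natDegree_prod_of_monic _ _ fun P hP => (h P hP).1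

theorem EXP_sub {l l' : Finset k[X]} (h : ∀ P ∈ l, P.Monic ∧ Irreducible P)
    (h' : ∀ P ∈ l', P.Monic ∧ Irreducible P) (e : ∏ P ∈ l, P = ∏ P ∈ l', P) : l ⊆ l' := by
  intro P hP
  have d : P ∣ ∏ Q ∈ l', Q := e ▸ dvd_prod_of_mem _ hP
  obtain ⟨Q, hQ, hd⟩ := ((h P hP).2.prime.dvd_finset_prod_iff _).1 d
  have : P = Q := eq_of_monic_of_associated (h P hP).1 (h' Q hQ).1
    ((h P hP).2.associated_of_dvd (h' Q hQ).2 hd)
  exact this ▸ hQ

theorem EXP_card (R : ℕ) : (Ls k R).card ≤ Nat.card k ^ (R + 1) := by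
  rw [← card_low (k := k) (R + 1)]
  refine card_le_card_of_injOn (fun l => ∏ P ∈ l, P) (fun l hl => ?_) (fun l hl l' hl' e => ?_)
  · have h := mem_Ls.1 (mem_coe.1 hl)
    exact mem_coe.2 (mem_low_of_natDegree_lt (by rw [EXP_deg h.1]; exact Nat.lt_succ_of_le h.2))
  · have h := mem_Ls.1 (mem_coe.1 hl)
    have h' := mem_Ls.1 (mem_coe.1 hl')
    exact Subset.antisymm (EXP_sub h.1 h'.1 e) (EXP_sub h'.1 h.1 e.symm)

theorem EXP_q : (1 : ℝ) ≤ Nat.card k := by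
  exact_mod_cast (Nat.card_pos (α := k))

theorem EXP_abs {r R : ℕ} {bad : k[X] → k[X] → Prop} (ha : Adm r bad) {l : Finset k[X]}
    (hl : l ∈ Ls k R) (z : k[X]) : |∏ P ∈ l, xi bad P z| ≤ (Nat.card k : ℝ) ^ R := by
  have h := mem_Ls.1 hl
  rw [abs_prod]
  calc ∏ P ∈ l, |xi bad P z| ≤ ∏ P ∈ l, (Nat.card k : ℝ) ^ P.natDegree := by
        refine prod_le_prod (fun _ _ => abs_nonneg _) fun P hP => ?_
        unfold xi
        split_ifs
        · simpa using one_le_pow₀ (EXP_q (k := k))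
        · rw [abs_of_nonneg (hb_nonneg ha (h.1 P hP).1 (h.1 P hP).2)]
          exact hb_le ha (h.1 P hP).1 (h.1 P hP).2
    _ = (Nat.card k : ℝ) ^ dg l := prod_pow_eq_pow_sum _ _ _
    _ ≤ _ := pow_le_pow_right₀ EXP_q h.2

theorem EXP_per {r : ℕ} {bad : k[X] → k[X] → Prop} (ha : Adm r bad) {l : Finset k[X]}
    (h : ∀ P ∈ l, P.Monic ∧ Irreducible P) {M : k[X]} (hM : (∏ P ∈ l, P) ∣ M) (z y : k[X]) :
    ∏ P ∈ l, xi bad P (z + M * y) = ∏ P ∈ l, xi bad P z := by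
  refine prod_congr rfl fun P hP => ?_
  obtain ⟨c, hc⟩ := (dvd_prod_of_mem (fun P : k[X] => P) hP).trans hM
  have := (ha P (h P hP).1 (h P hP).2).1 z (c * y)
  rw [hc, mul_assoc]
  simp only [xi, this]

end

theorem p_EXP :
    S_EXP := by
  intro k _ _ r bad R L F B ha hB
  have hq : (1 : ℝ) ≤ Nat.card k := EXP_q
  have hQ : (0 : ℝ) < (Nat.card k : ℝ) ^ R := by positivity
  have hB0 : 0 ≤ B := by
    simpa using hB (fun _ => 0) 1 one_ne_zero (by simp) (by simp) (by simp)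
  have key : ∀ l ∈ Ls k R, ∀ l' ∈ Ls k R,
      |∑ z ∈ low k L, (∏ P ∈ l, xi bad P z) * (∏ P ∈ l', xi bad P z) * F z| ≤
        (Nat.card k : ℝ) ^ R * (Nat.card k : ℝ) ^ R * B := by
    intro l hl l' hl'
    have h := mem_Ls.1 hl
    have h' := mem_Ls.1 hl'
    have := hB (fun z => (∏ P ∈ l, xi bad P z) * (∏ P ∈ l', xi bad P z) /
        ((Nat.card k : ℝ) ^ R * (Nat.card k : ℝ) ^ R)) ((∏ P ∈ l, P) * ∏ P ∈ l', P)
      ((EXP_monic h.1).mul (EXP_monic h'.1)).ne_zero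
      (by rw [(EXP_monic h.1).natDegree_mul (EXP_monic h'.1), EXP_deg h.1, EXP_deg h'.1]; omega)
      (fun z => by
        rw [abs_div, abs_mul, abs_of_pos (mul_pos hQ hQ), div_le_one (mul_pos hQ hQ)]
        exact mul_le_mul (EXP_abs ha hl z) (EXP_abs ha hl' z) (abs_nonneg _) hQ.le)
      (fun z y => by
        simp only [EXP_per ha h.1 (dvd_mul_right _ _), EXP_per ha h'.1 (dvd_mul_left _ _)])
    simp only [div_mul_eq_mul_div, ← sum_div] at this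
    rw [abs_div, abs_of_pos (mul_pos hQ hQ), div_le_iff₀ (mul_pos hQ hQ)] at this
    linarith
  have e : ∑ z ∈ low k L, Lam bad R z ^ 2 * F z = ∑ l ∈ Ls k R, ∑ l' ∈ Ls k R,
      ∑ z ∈ low k L, (∏ P ∈ l, xi bad P z) * (∏ P ∈ l', xi bad P z) * F z := by
    simp only [Lam, pow_two, sum_mul_sum, sum_mul]
    rw [sum_comm]
    refine sum_congr rfl fun l _ => ?_
    simp only [mul_sum, sum_mul]
    rw [sum_comm]
  have hc : ((Ls k R).card : ℝ) ≤ (Nat.card k : ℝ) ^ (R + 1) := by exact_mod_cast EXP_card R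
  rw [e]
  calc _ ≤ ∑ l ∈ Ls k R, ∑ l' ∈ Ls k R, (Nat.card k : ℝ) ^ R * (Nat.card k : ℝ) ^ R * B :=
        (abs_sum_le_sum_abs _ _).trans (sum_le_sum fun l hl =>
          (abs_sum_le_sum_abs _ _).trans (sum_le_sum fun l' hl' => key l hl l' hl'))
    _ = ((Ls k R).card : ℝ) * (Ls k R).card * ((Nat.card k : ℝ) ^ R * (Nat.card k : ℝ) ^ R * B) := by
        simp only [sum_const, nsmul_eq_mul]; ring
    _ ≤ (Nat.card k : ℝ) ^ (R + 1) * (Nat.card k : ℝ) ^ (R + 1) *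
          ((Nat.card k : ℝ) ^ R * (Nat.card k : ℝ) ^ R * B) := by gcongr
    _ = _ := by ring

end Pool.Agent.P.MP_e94e4b_nt.OA
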