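import Pool.Agent.P.MP_e94e4b_nt.OA.If

/-! Step FAM. -/

namespace Pool.Agent.P.MP_e94e4b_nt.OA

open Polynomial Finset Pool.Agent.P.MP_8be758_nt.C2
open scoped Classical

theorem FAM_exp (A : ℝ) (s D : ℕ) (hD : 0 < D) :
    ∃ m0 : ℕ, ∀ m ≥ m0, A * ((m : ℝ) + 1) ^ s ≤ 2 ^ (m / D) := by
  have h := tendsto_pow_const_div_const_pow_of_one_lt s (r := (2 : ℝ)) one_lt_two
  have h2 := (Filter.tendsto_add_atTop_iff_nat 1).2 h
  have hp : (0 : ℝ) < 1 / (2 * (|A| + 1) * D ^ s) := by positivity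
  obtain ⟨j0, hj⟩ := Filter.eventually_atTop.1 (h2.eventually (gt_mem_nhds hp))
  refine ⟨j0 * D, fun m hm => ?_⟩
  have h3 := hj (m / D) ((Nat.le_div_iff_mul_le hD).2 hm)
  rw [div_lt_div_iff₀ (by positivity) (by positivity), pow_succ] at h3
  have h4 : (m : ℝ) + 1 ≤ D * ((m / D + 1 : ℕ) : ℝ) := by
    have := Nat.lt_mul_div_succ m hD
    exact_mod_cast this
  have h5 : ((m : ℝ) + 1) ^ s ≤ D ^ s * ((m / D + 1 : ℕ) : ℝ) ^ s := by
    rw [← mul_pow]; exact pow_le_pow_left₀ (by positivity) h4 s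
  have h6 : A ≤ |A| + 1 := by linarith [le_abs_self A]
  calc A * ((m : ℝ) + 1) ^ s ≤ (|A| + 1) * (D ^ s * ((m / D + 1 : ℕ) : ℝ) ^ s) :=
        mul_le_mul h6 h5 (by positivity) (by positivity)
    _ ≤ 2 ^ (m / D) := by nlinarith

section
variable {k : Type} [Field k]
open UniqueFactorizationMonoid

theorem FAM_omega {f : k[X]} (hf : f ≠ 0) {Y : ℕ}
    (h : ∀ P : k[X], P.Monic → Irreducible P → P ∣ f → Y < P.natDegree) :
    (factors f).card * (Y + 1) ≤ f.natDegree := by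
  have h1 : (normalizedFactors f).card = (factors f).card :=
    (Multiset.card_eq_card_of_rel (factors_rel_of_associated (Associated.refl f))).trans rfl ▸
      by rw [normalizedFactors, Multiset.card_map]
  have h2 : (normalizedFactors f).prod.natDegree = f.natDegree :=
    natDegree_eq_of_degree_eq (degree_eq_degree_of_associated (prod_normalizedFactors hf))
  rw [← h1, ← h2, natDegree_multiset_prod _ (zero_notMem_normalizedFactors f)]
  have := Multiset.card_nsmul_le_sum (s := (normalizedFactors f).map natDegree) (a := Y + 1)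
    (fun x hx => by
      obtain ⟨P, hP, rfl⟩ := Multiset.mem_map.1 hx
      obtain ⟨a, b, c⟩ := (Polynomial.mem_normalizedFactors_iff hf).1 hP
      exact h P b a c)
  simpa using this

theorem FAM_card [Finite k] {f : k[X]} (hf : f ≠ 0) (R : ℕ) :
    ((prs k R).filter fun P => P ∣ f).card ≤ (factors f).card := by
  have h1 : (normalizedFactors f).card = (factors f).card := by
    rw [normalizedFactors, Multiset.card_map]
  rw [← h1]
  refine (card_le_card fun P hP => ?_).trans (Multiset.toFinset_card_le _)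
  obtain ⟨a, b⟩ := mem_filter.1 hP
  obtain ⟨a1, a2, -⟩ := mem_prs.1 a
  exact Multiset.mem_toFinset.2 ((Polynomial.mem_normalizedFactors_iff hf).2 ⟨a2, a1, b⟩)

theorem FAM_nsq {f : k[X]} (hf : f ≠ 0) (h : ¬ Squarefree f) :
    ∃ P : k[X], P.Monic ∧ Irreducible P ∧ P ^ 2 ∣ f := by
  rw [squarefree_iff_irreducible_sq_not_dvd_of_ne_zero hf] at h
  push Not at h
  obtain ⟨p, hp, hd⟩ := h
  have ha := associated_normalize p
  refine ⟨normalize p, monic_normalize hp.ne_zero, ha.irreducible hp, ?_⟩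
  rw [sq]
  exact (ha.symm.mul_mul ha.symm).dvd.trans hd

theorem FAM_sign {f : k[X]} (h : Squarefree f) {s : ℤ} (hs : s = 1 ∨ s = -1)
    (h0 : 1 + (s : ℝ) * mu f ≠ 0) : moebius f = s := by
  rw [mu, h.moebius_eq] at h0
  rw [h.moebius_eq]
  rcases neg_one_pow_eq_or ℤ (factors f).card with e | e <;> rcases hs with rfl | rfl <;>
    simp_all

end

theorem p_FAM (hSIEVE : S_SIEVE) (hPT : S_PT) (hEXP : S_EXP) (hTW : S_TW) (hADM : S_ADM)
    (hNSQ : S_NSQ) : S_FAM := by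
  intro r u
  obtain ⟨C, hC, hS⟩ := hSIEVE r
  obtain ⟨m1, hm1⟩ := hTW r
  obtain ⟨C2, hC2, hC2'⟩ : ∃ C2 : ℕ, 2 ≤ C2 ∧ 8 * 2 ^ r * C ≤ C2 :=
    ⟨⌈8 * 2 ^ r * C⌉₊ + 2, by omega, (Nat.le_ceil _).trans (by push_cast; linarith)⟩
  obtain ⟨K, hK⟩ : ∃ K, K = 1000 * u * C2 := ⟨_, rfl⟩
  obtain ⟨m2, hm2⟩ := FAM_exp (8 * 2 ^ r * 4 ^ (r * K) * C * r) (r + 1) (500 * C2) (by omega)
  refine ⟨K, 1 / (2 * 2 ^ r * 4 ^ (r * K) * C), m1 + m2 + 500 * (r + 5) + 500 * C2, by positivity,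
    ?_⟩
  intro k _ _ _ m G x t σ hm hn hu hG hr ht hadm hσ hx hgood
  obtain ⟨R, hR⟩ : ∃ R, R = m / 500 := ⟨_, rfl⟩
  obtain ⟨Y, hY⟩ : ∃ Y, Y = R / C2 := ⟨_, rfl⟩
  obtain ⟨L, hL⟩ : ∃ L, L = Lz m := ⟨_, rfl⟩
  have hYm : Y = m / (500 * C2) := by rw [hY, hR, Nat.div_div_eq_div_mul]
  have hY1 : 1 ≤ Y := by rw [hYm]; exact (Nat.le_div_iff_mul_le (by omega)).2 (by omega)
  have hYR : Y * C2 ≤ R := hY ▸ Nat.div_mul_le_self R C2
  have hY2 : 2 * Y ≤ R := by nlinarith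
  have hmY : m < 500 * C2 * (Y + 1) := hYm ▸ Nat.lt_mul_div_succ m (by omega)
  have hLR : 3 * R ≤ L := by rw [hL, Lz]; omega
  obtain ⟨f, hf⟩ : ∃ f : k[X] → k[X] → k[X], ∀ c z, f c z = G ^ 2 + (x + z ^ 4) + c ^ 2 :=
    ⟨_, fun _ _ => rfl⟩
  have hA := hADM k r t G x hr hadm
  simp only [← hf] at hA
  obtain ⟨bad, hbad⟩ : ∃ bad : k[X] → k[X] → Prop, bad = fun P z => ∃ c ∈ t, P ∣ f c z := ⟨_, rfl⟩
  rw [← hbad] at hA
  obtain ⟨g1, g2, s1, s2⟩ := hS k bad R L hA hLR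
  replace s2 := s2 Y hY2
  obtain ⟨Gs, hGs⟩ : ∃ Gs, Gs = Gh (hb bad) R := ⟨_, rfl⟩
  rw [← hGs] at g1 g2 s1 s2
  have hq : (2 : ℝ) ≤ Nat.card k := by exact_mod_cast two_le_card (k := k)
  obtain ⟨Q, hQ⟩ : ∃ Q : ℝ, Q = (Nat.card k : ℝ) ^ L := ⟨_, rfl⟩
  have hQ0 : 0 < Q := by rw [hQ]; positivity
  rw [← hQ] at s1 s2
  rw [← hL, ← hQ]
  have hxd := natDegree_le_of_mem_low hx
  have hfd : ∀ c ∈ t, ∀ z ∈ low k L, f c z ≠ 0 ∧ (f c z).natDegree = 2 * G.natDegree := by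
    intro c hc z hz
    have a1 := natDegree_le_of_mem_low hz
    have a2 := natDegree_add_le (x + z ^ 4) (c ^ 2)
    have a3 := natDegree_add_le x (z ^ 4)
    have a4 := ht c hc
    rw [natDegree_pow] at a2 a3
    have a5 : (x + z ^ 4 + c ^ 2).natDegree < (G ^ 2).natDegree := by
      rw [natDegree_pow]; rw [hL, Lz] at a1; omega
    rw [hf, add_assoc]
    exact ⟨((hG.pow 2).add_of_left (degree_lt_degree a5)).ne_zero,
      (natDegree_add_eq_left_of_natDegree_lt a5).trans (natDegree_pow _ _)⟩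
  have tw : ∀ S ∈ t.powerset.erase ∅,
      |∑ z ∈ low k L, Lam bad R z ^ 2 * ∏ c ∈ S, (σ c : ℝ) * mu (f c z)| ≤ Q / (8 * 2 ^ r) := by
    intro S hS
    obtain ⟨a1, a2⟩ := mem_erase.1 hS
    have a3 := mem_powerset.1 a2
    have b1 := hEXP k r bad R L (fun z => ∏ c ∈ S, mu (f c z)) (Q / (Nat.card k : ℝ) ^ (5 * R)) hA
      fun a Mm c1 c2 c3 c4 => by
        simp only [hf, hQ, hL]
        obtain ⟨d1, V1, P, d2, d3, d4, d5, d6, d7⟩ := hgood
        exact hm1 k m R G x Mm S a (by omega) hn hG (nonempty_iff_ne_empty.2 a1)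
          ((card_le_card a3).trans hr) (fun c hc => ht c (a3 hc)) hx
          ⟨d1, V1, P, d2, d3, d4, d5, d6, fun c hc => d7 c (a3 hc)⟩ (by omega) c1 c2 c3 c4
    have b2 : |∏ c ∈ S, (σ c : ℝ)| = 1 := by
      rw [Finset.abs_prod]
      exact prod_eq_one fun c hc => by rcases hσ c (a3 hc) with e | e <;> simp [e]
    simp only [prod_mul_distrib, mul_left_comm _ (∏ c ∈ S, (σ c : ℝ))]
    rw [← mul_sum, abs_mul, b2, one_mul]
    refine b1.trans ?_
    rw [show 5 * R = (4 * R + 2) + (R - 2) by omega, pow_add _ (4 * R + 2), ← mul_div_assoc,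
      mul_div_mul_left _ _ (by positivity)]
    refine div_le_div_of_nonneg_left hQ0.le (by positivity) ?_
    calc (8 * 2 ^ r : ℝ) = 2 ^ (r + 3) := by ring
      _ ≤ 2 ^ (R - 2) := pow_le_pow_right₀ one_le_two (by omega)
      _ ≤ _ := pow_le_pow_left₀ (by norm_num) hq _
  have h2r : ((2 : ℝ) ^ t.card) ≤ 2 ^ r := pow_le_pow_right₀ one_le_two hr
  have low1 : 7 / 8 * (Q * Gs) ≤
      ∑ z ∈ low k L, Lam bad R z ^ 2 * ∏ c ∈ t, (1 + (σ c : ℝ) * mu (f c z)) := by
    simp only [prod_one_add, mul_sum]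
    rw [sum_comm, ← add_sum_erase _ _ (empty_mem_powerset t)]
    simp only [prod_empty, mul_one]
    rw [s1]
    have a1 := (abs_sum_le_sum_abs _ _).trans (sum_le_card_nsmul _ _ _ tw)
    have a2 : ((t.powerset.erase ∅).card : ℝ) ≤ 2 ^ r := by
      refine le_trans ?_ h2r
      exact_mod_cast card_erase_le.trans (card_powerset t).le
    have a3 : ((t.powerset.erase ∅).card : ℝ) * (Q / (8 * 2 ^ r)) ≤ Q / 8 := by
      refine (mul_le_mul_of_nonneg_right a2 (by positivity)).trans_eq ?_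
      field_simp
    rw [nsmul_eq_mul] at a1
    have a4 := neg_abs_le (∑ S ∈ t.powerset.erase ∅, ∑ z ∈ low k L,
      Lam bad R z ^ 2 * ∏ c ∈ S, (σ c : ℝ) * mu (f c z))
    nlinarith
  obtain ⟨NS, hNS⟩ : ∃ NS : k[X] → Prop, NS = fun z => ∃ c ∈ t, ∃ P : k[X], P.Monic ∧
    Irreducible P ∧ Y < P.natDegree ∧ P ^ 2 ∣ f c z := ⟨_, rfl⟩
  have pt : ∀ z ∈ low k L, Lam bad R z ^ 2 * ∏ c ∈ t, (1 + (σ c : ℝ) * mu (f c z)) ≤
      2 ^ r * ((if ∃ P ∈ prs k Y, bad P z then Lam bad R z ^ 2 else 0) +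
        4 ^ (r * K) * Gs ^ 2 * ((if NS z then 1 else 0) +
          if Tg K G t σ (x + z ^ 4) then 1 else 0)) := by
    intro z hz
    have a1 : ∏ c ∈ t, (1 + (σ c : ℝ) * mu (f c z)) ≤ 2 ^ r := by
      refine le_trans ?_ h2r
      rw [← prod_const]
      refine prod_le_prod (fun c hc => ?_) fun c hc => ?_ <;>
        have := abs_le.1 (abs_mu_le (f c z)) <;>
        rcases hσ c hc with e | e <;> simp only [e, Int.cast_one, Int.cast_neg] <;> linarith
    have a2 := mul_le_mul_of_nonneg_left a1 (sq_nonneg (Lam bad R z))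
    by_cases hE : ∃ P ∈ prs k Y, bad P z
    · rw [if_pos hE]
      refine a2.trans ?_
      rw [mul_comm]
      refine mul_le_mul_of_nonneg_left (le_add_of_nonneg_right ?_) (by positivity)
      positivity
    rw [if_neg hE, zero_add]
    have b1 : ∀ c ∈ t, ∀ P : k[X], P.Monic → Irreducible P → P ∣ f c z → Y < P.natDegree :=
      fun c hc P p1 p2 p3 => by
        by_contra p4
        exact hE ⟨P, mem_prs.2 ⟨p1, p2, by omega⟩, hbad ▸ ⟨c, hc, p3⟩⟩
    have b2 : ∀ c ∈ t, (UniqueFactorizationMonoid.factors (f c z)).card ≤ K := fun c hc => by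
      have c1 := FAM_omega (hfd c hc z hz).1 (b1 c hc)
      rw [(hfd c hc z hz).2] at c1
      refine Nat.le_of_mul_le_mul_right (c1.trans ?_) (Nat.succ_pos Y)
      rw [hK]
      have := Nat.mul_le_mul_left u hmY.le
      nlinarith
    have b3 : ((prs k R).filter fun P => bad P z).card ≤ r * K := by
      have : ((prs k R).filter fun P => bad P z) ⊆
          t.biUnion fun c => (prs k R).filter fun P => P ∣ f c z := fun P hP => by
        obtain ⟨p1, p2⟩ := mem_filter.1 hP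
        rw [hbad] at p2
        obtain ⟨c, hc, p3⟩ := p2
        exact mem_biUnion.2 ⟨c, hc, mem_filter.2 ⟨p1, p3⟩⟩
      exact (card_le_card this).trans ((card_biUnion_le_card_mul _ _ _ fun c hc =>
        (FAM_card (hfd c hc z hz).1 R).trans (b2 c hc)).trans (Nat.mul_le_mul_right K hr))
    have b4 := hPT k r bad R (r * K) z hA b3
    rw [← hGs] at b4
    have b5 : Lam bad R z ^ 2 * 2 ^ r ≤ 2 ^ r * (4 ^ (r * K) * Gs ^ 2 * 1) := by
      rw [mul_one, mul_comm]; exact mul_le_mul_of_nonneg_left b4 (by positivity)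
    by_cases h0 : ∏ c ∈ t, (1 + (σ c : ℝ) * mu (f c z)) = 0
    · rw [h0, mul_zero]; positivity
    refine a2.trans (b5.trans ?_)
    refine mul_le_mul_of_nonneg_left (mul_le_mul_of_nonneg_left ?_ (by positivity)) (by positivity)
    by_cases h1 : NS z
    · rw [if_pos h1]; split_ifs <;> norm_num
    rw [if_neg h1, zero_add, if_pos]
    intro c hc
    rw [← hf]
    refine ⟨FAM_sign ?_ (hσ c hc) (prod_ne_zero_iff.1 h0 c hc), fun P p1 p2 => ?_⟩
    swap
    · have ha := associated_normalize P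
      have c1 := b1 c hc (normalize P) (monic_normalize p1.ne_zero) (ha.irreducible p1)
        (ha.symm.dvd.trans p2)
      rw [← natDegree_eq_of_degree_eq (degree_eq_degree_of_associated ha)] at c1
      rw [(hfd c hc z hz).2]
      refine le_trans ?_ (Nat.mul_le_mul_left K (Nat.succ_le_of_lt c1))
      rw [hK]
      have := Nat.mul_le_mul_left u hmY.le
      nlinarith
    by_contra h2
    obtain ⟨P, p1, p2, p3⟩ := FAM_nsq (hfd c hc z hz).1 h2
    exact h1 (hNS ▸ ⟨c, hc, P, p1, p2, b1 c hc P p1 p2 ((dvd_pow_self P two_ne_zero).trans p3), p3⟩)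
  have tot := low1.trans (sum_le_sum pt)
  rw [← mul_sum, sum_add_distrib, ← sum_filter, ← mul_sum, sum_add_distrib, sum_boole,
    sum_boole] at tot
  have hR0 : (0 : ℝ) < R := by exact_mod_cast (by omega : 0 < R)
  have e1 : 2 ^ r * ∑ z ∈ (low k L).filter (fun z => ∃ P ∈ prs k Y, bad P z), Lam bad R z ^ 2 ≤
      Q * Gs / 8 := by
    have a1 : (Y : ℝ) * C2 ≤ R := by exact_mod_cast hYR
    have a2 : 8 * 2 ^ r * C * Y ≤ R := by
      have : (0 : ℝ) ≤ Y := Nat.cast_nonneg _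
      nlinarith
    refine le_of_mul_le_mul_left ?_ hR0
    have a3 := mul_le_mul_of_nonneg_left s2 (show (0 : ℝ) ≤ 2 ^ r by positivity)
    have a4 := mul_le_mul_of_nonneg_right a2 (show 0 ≤ Q * Gs by positivity)
    nlinarith
  have hRm : (R : ℝ) + 1 ≤ m := by exact_mod_cast (by omega : R + 1 ≤ m)
  have g3 : Gs ≤ C * (m : ℝ) ^ r := g2.trans (by gcongr)
  have e2 : 2 ^ r * (4 ^ (r * K) * Gs ^ 2 * (((low k L).filter NS).card : ℝ)) ≤ Q * Gs / 8 := by
    have hder : derivative x ≠ 0 := by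
      rw [← eo_evp_odp x, derivative_eo]
      refine fun h => ?_
      have h0 : odp x = 0 := (expand_eq_zero two_pos).1 h
      have := hgood.1
      rw [h0, natDegree_zero] at this
      omega
    have a1 : (low k L).filter NS ⊆ t.biUnion fun c => (low k L).filter fun z =>
        ∃ P : k[X], P.Monic ∧ Irreducible P ∧ Y < P.natDegree ∧
          P ^ 2 ∣ G ^ 2 + (x + z ^ 4) + c ^ 2 := fun z hz => by
      obtain ⟨p1, p2⟩ := mem_filter.1 hz
      rw [hNS] at p2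
      obtain ⟨c, hc, p3⟩ := p2
      exact mem_biUnion.2 ⟨c, hc, mem_filter.2 ⟨p1, hf c z ▸ p3⟩⟩
    have a2 : ((low k L).filter NS).card * Nat.card k ^ Y ≤ r * (m * Nat.card k ^ L) := by
      refine (Nat.mul_le_mul_right _ ((card_le_card a1).trans card_biUnion_le)).trans ?_
      rw [sum_mul]
      refine (sum_le_card_nsmul _ _ (m * Nat.card k ^ L) fun c _ => ?_).trans
        (Nat.mul_le_mul_right _ hr)
      have := hNSQ k G x c Y L hder (by omega)
      rw [mul_assoc] at this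
      exact (Nat.le_mul_of_pos_left _ hY1).trans
        (this.trans (Nat.mul_le_mul_right _ (by omega)))
    have a3 : (((low k L).filter NS).card : ℝ) * 2 ^ Y ≤ r * (m * Q) := by
      refine (mul_le_mul_of_nonneg_left (pow_le_pow_left₀ (by norm_num) hq Y)
        (Nat.cast_nonneg _)).trans ?_
      rw [hQ]; exact_mod_cast a2
    have a4 := hm2 m (by omega)
    rw [← hYm] at a4
    have a5 : 8 * 2 ^ r * 4 ^ (r * K) * Gs * (r * m) ≤ 2 ^ Y := by
      refine le_trans ?_ a4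
      have : Gs * m ≤ C * ((m : ℝ) + 1) ^ (r + 1) := by
        rw [pow_succ, ← mul_assoc]
        refine mul_le_mul (g3.trans (by gcongr; linarith)) (by linarith) (by positivity)
          (by positivity)
      calc 8 * 2 ^ r * 4 ^ (r * K) * Gs * (r * m) = 8 * 2 ^ r * 4 ^ (r * K) * r * (Gs * m) := by ring
        _ ≤ 8 * 2 ^ r * 4 ^ (r * K) * r * (C * ((m : ℝ) + 1) ^ (r + 1)) := by gcongr
        _ = _ := by ring
    refine le_of_mul_le_mul_right ?_ (show (0 : ℝ) < 2 ^ Y by positivity)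
    calc 2 ^ r * (4 ^ (r * K) * Gs ^ 2 * (((low k L).filter NS).card : ℝ)) * 2 ^ Y
        = 2 ^ r * 4 ^ (r * K) * Gs ^ 2 * ((((low k L).filter NS).card : ℝ) * 2 ^ Y) := by ring
      _ ≤ 2 ^ r * 4 ^ (r * K) * Gs ^ 2 * (r * (m * Q)) := by gcongr
      _ = Q * Gs / 8 * (8 * 2 ^ r * 4 ^ (r * K) * Gs * (r * m)) := by ring
      _ ≤ _ := by gcongr
  obtain ⟨T, hT⟩ : ∃ T : ℝ, T = (((low k L).filter fun z => Tg K G t σ (x + z ^ 4)).card : ℝ) :=
    ⟨_, rfl⟩
  rw [← hT] at tot ⊢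
  have hT0 : 0 ≤ T := hT ▸ Nat.cast_nonneg _
  have e3 : Q / 2 * Gs ≤ 2 ^ r * 4 ^ (r * K) * Gs * T * Gs := by nlinarith
  have e4 := le_of_mul_le_mul_right e3 (by linarith)
  have hm0 : (0 : ℝ) < m := by linarith
  rw [div_le_iff₀ (by positivity), div_mul_eq_mul_div, one_mul, div_le_iff₀ (by positivity)]
  have e5 : 2 ^ r * 4 ^ (r * K) * Gs * T ≤ 2 ^ r * 4 ^ (r * K) * (C * (m : ℝ) ^ r) * T := by gcongr
  nlinarith

end Pool.Agent.P.MP_e94e4b_nt.OA
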