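import Pool.Agent.P.MP_e94e4b_nt.OA.If

/-! Step FIN. -/

namespace Pool.Agent.P.MP_e94e4b_nt.OA

open Polynomial Finset Pool.Agent.P.MP_8be758_nt.C2
open scoped Classical

theorem p_FIN (hFAM : S_FAM) (hGOODX : S_GOODX) :
    S_FIN := by
  intro r u
  obtain ⟨K, c0, m0, hc0, hF⟩ := hFAM r u
  obtain ⟨m1, hX⟩ := hGOODX r
  refine ⟨K, c0 / 200, max (max m0 m1) 1, by positivity, ?_⟩
  intro k _ _ _ m G t σ hm h1 h2 h3 h4 h5 h6 h7
  have hm0 : m0 ≤ m := le_trans (le_trans (le_max_left _ _) (le_max_left _ _)) hm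
  have hm1 : m1 ≤ m := le_trans (le_trans (le_max_right _ _) (le_max_left _ _)) hm
  have hm2 : 1 ≤ m := le_trans (le_max_right _ _) hm
  have hq : (0 : ℝ) < (Nat.card k : ℝ) := by exact_mod_cast Nat.card_pos
  have hsh : ∀ z ∈ low k (Lz m), ∀ g ∈ low k m, g + z ^ 4 ∈ low k m := by
    intro z hz g hg
    refine add_mem_low hg (mem_low_of_natDegree_lt ?_)
    have a1 := natDegree_le_of_mem_low hz
    have a2 : (z ^ 4).natDegree ≤ 4 * z.natDegree := natDegree_pow_le
    unfold Lz at a1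
    omega
  have key := sum_avg (low k m) (low k (Lz m)) (fun z => z ^ 4) hsh
    (fun y => if Tg K G t σ y then (1 : ℝ) else 0)
  simp only [sum_boole] at key
  rw [card_low] at key
  have hx := hX k m G t hm1 h4
  have hx' : (Nat.card k : ℝ) ^ m ≤
      200 * (((low k m).filter fun x => GoodX m G t x).card : ℝ) := by exact_mod_cast hx
  set B : ℝ := c0 * (Nat.card k : ℝ) ^ Lz m / (m : ℝ) ^ r with hB
  have hmp : (0 : ℝ) < (m : ℝ) ^ r := by positivity
  have hB0 : 0 < B := by positivity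
  have low1 : (((low k m).filter fun x => GoodX m G t x).card : ℝ) * B ≤
      ∑ g ∈ low k m, (((low k (Lz m)).filter fun z => Tg K G t σ (g + z ^ 4)).card : ℝ) := by
    calc (((low k m).filter fun x => GoodX m G t x).card : ℝ) * B
        = ∑ _g ∈ (low k m).filter fun x => GoodX m G t x, B := by simp
      _ ≤ ∑ g ∈ (low k m).filter fun x => GoodX m G t x,
            (((low k (Lz m)).filter fun z => Tg K G t σ (g + z ^ 4)).card : ℝ) := by
          refine sum_le_sum fun g hg => ?_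
          rw [mem_filter] at hg
          exact hF k m G g t σ hm0 h1 h2 h3 h4 h5 h6 h7 hg.1 hg.2
      _ ≤ _ := sum_le_sum_of_subset_of_nonneg (filter_subset _ _) fun _ _ _ => Nat.cast_nonneg _
  rw [← key] at low1
  have hL : (0 : ℝ) < (Nat.card k : ℝ) ^ Lz m := by positivity
  push_cast at low1
  have e : c0 / 200 * (Nat.card k : ℝ) ^ m / (m : ℝ) ^ r * (Nat.card k : ℝ) ^ Lz m =
      (Nat.card k : ℝ) ^ m / 200 * B := by
    rw [hB]; ring
  refine le_of_mul_le_mul_right ?_ hL
  rw [e]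
  have : (Nat.card k : ℝ) ^ m / 200 * B ≤
      (((low k m).filter fun x => GoodX m G t x).card : ℝ) * B :=
    mul_le_mul_of_nonneg_right (by linarith) hB0.le
  linarith

end Pool.Agent.P.MP_e94e4b_nt.OA
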