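import Pool.Agent.P.MP_e94e4b_nt.OA.If

/-! Step GOODV. -/

namespace Pool.Agent.P.MP_e94e4b_nt.OA

open Polynomial Finset Pool.Agent.P.MP_8be758_nt.C2
open scoped Classical

theorem GOODV_mem {k : Type} [Field k] [Finite k] {d : ℕ} {V : k[X]}
    (h : V ∈ low k (d + 1) \ low k d) : V ≠ 0 ∧ V.natDegree = d := by
  obtain ⟨h1, h2⟩ := mem_sdiff.1 h
  have h0 : V ≠ 0 := fun e => h2 (e ▸ zero_mem_low d)
  have h3 := natDegree_lt_of_mem_low h1 h0
  have h4 : ¬ V.natDegree < d := fun e => h2 (mem_low_of_natDegree_lt e)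
  exact ⟨h0, by omega⟩

theorem GOODV_card (k : Type) [Field k] [Finite k] (d : ℕ) :
    Nat.card k ^ (d + 1) ≤ 2 * (low k (d + 1) \ low k d).card := by
  have h1 := card_sdiff_add_card_eq_card (low_mono (k := k) (Nat.le_succ d))
  rw [card_low, card_low] at h1
  have h2 : 2 ≤ Nat.card k := Finite.one_lt_card
  have h3 : 2 * Nat.card k ^ d ≤ Nat.card k ^ (d + 1) := by
    rw [pow_succ, mul_comm]; exact Nat.mul_le_mul_left _ h2
  simp only [Nat.succ_eq_add_one] at h1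
  omega

theorem p_GOODV (hPNT : S_PNT) :
    S_GOODV := by
  intro k _ _ N hN
  set D := Icc ((N + 9) / 10) (N / 5) with hD
  set T : Finset (Σ _ : ℕ, k[X] × k[X]) := D.sigma fun d => (low k (d + 1) \ low k d) ×ˢ
    ((prs k (N - 1 - d)).filter fun P => P.natDegree = N - 1 - d) with hT
  have hm : ∀ x ∈ T, x.2.1 ≠ 0 ∧ x.2.1.natDegree = x.1 ∧ x.2.2.Monic ∧ Irreducible x.2.2 ∧
      x.2.2.natDegree = N - 1 - x.1 ∧ N ≤ 10 * x.1 ∧ 5 * x.1 ≤ N := fun x hx => by
    obtain ⟨h1, h2⟩ := mem_sigma.1 hx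
    obtain ⟨h3, h4⟩ := mem_product.1 h2
    obtain ⟨h5, h6⟩ := mem_filter.1 h4
    obtain ⟨h7, h8⟩ := mem_Icc.1 h1
    exact ⟨(GOODV_mem h3).1, (GOODV_mem h3).2, (mem_prs.1 h5).1, (mem_prs.1 h5).2.1, h6,
      by omega, by omega⟩
  have h1 : T.card ≤ ((low k N).filter fun V => V.natDegree + 1 = N ∧ ∃ V1 P : k[X],
      V = V1 * P ∧ P.Monic ∧ Irreducible P ∧ N ≤ 10 * V1.natDegree ∧
        5 * V1.natDegree ≤ N).card := by
    refine card_le_card_of_injOn (fun x => x.2.1 * x.2.2) (fun x hx => ?_) fun x hx y hy e => ?_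
    · obtain ⟨a1, a2, a3, a4, a5, a6, a7⟩ := hm x hx
      have : (x.2.1 * x.2.2).natDegree + 1 = N := by
        rw [natDegree_mul a1 a3.ne_zero, a2, a5]; omega
      exact mem_coe.2 (mem_filter.2 ⟨mem_low_of_natDegree_lt (Nat.lt_of_succ_le this.le), this, _, _, rfl, a3, a4,
        by omega, by omega⟩)
    · obtain ⟨a1, a2, a3, a4, a5, a6, a7⟩ := hm x hx
      obtain ⟨b1, b2, b3, b4, b5, b6, b7⟩ := hm y hy
      have e' : x.2.1 * x.2.2 = y.2.1 * y.2.2 := e
      have h2 : x.2.2 ∣ y.2.1 * y.2.2 := e' ▸ dvd_mul_left _ _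
      have h3 : x.2.2 = y.2.2 := by
        rcases a4.prime.dvd_or_dvd h2 with h | h
        · have := natDegree_le_of_dvd h b1
          omega
        · exact eq_of_monic_of_associated a3 b3 (a4.associated_of_dvd b4 h)
      rw [← h3] at e'
      have h4 := mul_right_cancel₀ a3.ne_zero e'
      have h5 : x.1 = y.1 := by rw [← a2, ← b2, h4]
      exact Sigma.ext h5 (heq_of_eq (Prod.ext h4 h3))
  have h2 : D.card * Nat.card k ^ N ≤ 4 * N * T.card := by
    rw [hT, card_sigma, mul_sum, ← smul_eq_mul, ← sum_const]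
    refine sum_le_sum fun d hd => ?_
    obtain ⟨h7, h8⟩ := mem_Icc.1 hd
    have a1 := GOODV_card k d
    have a2 := (hPNT k (N - 1 - d) (by omega)).trans
      (Nat.mul_le_mul_right _ (Nat.mul_le_mul_left 2 (show N - 1 - d ≤ N by omega)))
    rw [card_product, show Nat.card k ^ N = Nat.card k ^ (d + 1) * Nat.card k ^ (N - 1 - d) by
      rw [← pow_add]; congr 1; omega]
    exact (Nat.mul_le_mul a1 a2).trans_eq (by ring)
  have h3 : N ≤ 25 * D.card := by rw [hD, Nat.card_Icc]; omega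
  refine Nat.le_of_mul_le_mul_left ?_ (show 0 < N by omega)
  calc N * Nat.card k ^ N ≤ 25 * (D.card * Nat.card k ^ N) := by
        rw [← mul_assoc]; exact Nat.mul_le_mul_right _ h3
    _ ≤ 25 * (4 * N * T.card) := Nat.mul_le_mul_left _ h2
    _ = N * (100 * T.card) := by ring
    _ ≤ _ := Nat.mul_le_mul_left _ (Nat.mul_le_mul_left _ h1)

end Pool.Agent.P.MP_e94e4b_nt.OA
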