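import Pool.Agent.P.MP_e94e4b_nt.OA.If

/-! Step GOODX. -/

namespace Pool.Agent.P.MP_e94e4b_nt.OA

open Polynomial Finset Pool.Agent.P.MP_8be758_nt.C2
open scoped Classical

theorem GOODX_half {k : Type} [Field k] [Finite k] [CharP k 2] (r M : ℕ) (G V P : k[X])
    (t : Finset k[X]) (ht : t.card ≤ r) (hP : Irreducible P) (hD : r + 1 ≤ P.natDegree)
    (hM : 2 * (r + 1) + 1 < M) :
    (Nat.card k : ℝ) ^ M ≤ 2 * ∑ a ∈ low k M,
      (if ∀ c ∈ t, ¬ P ∣ kap 1 (fr G + fr c + a) V then (1 : ℝ) else 0) := by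
  have hb := Pool.Agent.P.MP_e94e4b_nt.W.bad_kap t (fun c => fr G + fr c) V {P} (D := r + 1)
    (M := M) (fun Q hQ => by rw [mem_singleton.1 hQ]; exact ⟨hP, hD⟩) hM
  have e : ((low k M).filter fun a => ∃ p ∈ ({P} : Finset k[X]) ×ˢ t,
      p.1 ∣ kap 1 (fr G + fr p.2 + a) V) =
      (low k M).filter fun a => ¬ ∀ c ∈ t, ¬ P ∣ kap 1 (fr G + fr c + a) V := by
    refine filter_congr fun a _ => ?_
    constructor
    · rintro ⟨p, hp, h⟩ h2
      obtain ⟨p1, p2⟩ := mem_product.1 hp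
      rw [mem_singleton.1 p1] at h
      exact h2 _ p2 h
    · intro h
      push Not at h
      obtain ⟨c, hc, h⟩ := h
      exact ⟨(P, c), mem_product.2 ⟨mem_singleton_self _, hc⟩, h⟩
  rw [e, card_singleton] at hb
  have hc := card_filter_add_card_filter_not (s := low k M)
    (fun a => ∀ c ∈ t, ¬ P ∣ kap 1 (fr G + fr c + a) V)
  rw [card_low] at hc
  have hc' : (((low k M).filter fun a => ∀ c ∈ t, ¬ P ∣ kap 1 (fr G + fr c + a) V).card : ℝ) +
      (((low k M).filter fun a => ¬ ∀ c ∈ t, ¬ P ∣ kap 1 (fr G + fr c + a) V).card : ℝ) =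
      (Nat.card k : ℝ) ^ M := by exact_mod_cast hc
  rw [sum_boole]
  have h2 : (2 * r : ℝ) ≤ 2 ^ (r + 1) := by
    have : r < 2 ^ r := Nat.lt_two_pow_self
    have : (r : ℝ) ≤ 2 ^ r := by exact_mod_cast this.le
    rw [pow_succ]; linarith
  have ht' : (t.card : ℝ) ≤ r := by exact_mod_cast ht
  have hq : (0 : ℝ) ≤ (Nat.card k : ℝ) ^ M := by positivity
  have hpos : (0 : ℝ) < 2 ^ (r + 1) := by positivity
  have h3 : (((low k M).filter fun a =>
      ¬ ∀ c ∈ t, ¬ P ∣ kap 1 (fr G + fr c + a) V).card : ℝ) * 2 ≤ (Nat.card k : ℝ) ^ M := by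
    refine le_of_mul_le_mul_right ?_ hpos
    have : (t.card : ℝ) * (Nat.card k : ℝ) ^ M * 2 ≤ (Nat.card k : ℝ) ^ M * 2 ^ (r + 1) := by
      nlinarith
    push_cast at hb
    nlinarith
  linarith

theorem p_GOODX (hGOODV : S_GOODV) :
    S_GOODX := by
  intro r
  refine ⟨80 + 4 * r + 8, fun k _ _ _ m G t hm ht => ?_⟩
  have hV := hGOODV k (m / 2) (by omega)
  set S := (low k (m / 2)).filter fun V => V.natDegree + 1 = m / 2 ∧ ∃ V1 P : k[X],
      V = V1 * P ∧ P.Monic ∧ Irreducible P ∧ m / 2 ≤ 10 * V1.natDegree ∧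
        5 * V1.natDegree ≤ m / 2 with hS
  have hV' : (Nat.card k : ℝ) ^ (m / 2) ≤ 100 * (S.card : ℝ) := by exact_mod_cast hV
  have key : ∀ V ∈ S, (Nat.card k : ℝ) ^ ((m + 1) / 2) ≤ 2 * ∑ a ∈ low k ((m + 1) / 2),
      (if GoodX m G t (eo a V) then (1 : ℝ) else 0) := by
    intro V hV
    obtain ⟨_, h1, V1, P, h2, h3, h4, h5, h6⟩ := mem_filter.1 hV
    have hV0 : V1 ≠ 0 := by
      rintro rfl
      rw [natDegree_zero] at h5
      omega
    have hd : V.natDegree = V1.natDegree + P.natDegree := by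
      rw [h2, natDegree_mul hV0 h3.ne_zero]
    refine (GOODX_half r ((m + 1) / 2) G V P t ht h4 (by omega) (by omega)).trans ?_
    refine mul_le_mul_of_nonneg_left (sum_le_sum fun a _ => ?_) (by norm_num)
    split_ifs with c1 c2
    · exact le_rfl
    · exact absurd ⟨by rw [odp_eo]; exact h1, V1, P, by rw [odp_eo]; exact h2, h3, h4, h5, h6,
        by rw [odp_eo, evp_eo]; exact c1⟩ c2
    · norm_num
    · exact le_rfl
  have e := Pool.Agent.P.MP_e94e4b_nt.W.sum_low_eo (k := k) m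
    (fun x => if GoodX m G t x then (1 : ℝ) else 0)
  rw [sum_boole] at e
  have h1 : (S.card : ℝ) * (Nat.card k : ℝ) ^ ((m + 1) / 2) ≤
      2 * (((low k m).filter fun x => GoodX m G t x).card : ℝ) := by
    rw [e, mul_sum]
    calc (S.card : ℝ) * (Nat.card k : ℝ) ^ ((m + 1) / 2)
        = ∑ _V ∈ S, (Nat.card k : ℝ) ^ ((m + 1) / 2) := by rw [sum_const, nsmul_eq_mul]
      _ ≤ ∑ V ∈ S, 2 * ∑ a ∈ low k ((m + 1) / 2),
          (if GoodX m G t (eo a V) then (1 : ℝ) else 0) := sum_le_sum key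
      _ ≤ _ := sum_le_sum_of_subset_of_nonneg (filter_subset _ _) fun V _ _ =>
          mul_nonneg (by norm_num) (sum_nonneg fun a _ => by split_ifs <;> norm_num)
  have h2 : (Nat.card k : ℝ) ^ m = (Nat.card k : ℝ) ^ (m / 2) * (Nat.card k : ℝ) ^ ((m + 1) / 2) := by
    rw [← pow_add]; congr 1; omega
  have hq : (0 : ℝ) ≤ (Nat.card k : ℝ) ^ ((m + 1) / 2) := by positivity
  have h3 : (Nat.card k : ℝ) ^ m ≤
      200 * (((low k m).filter fun x => GoodX m G t x).card : ℝ) := by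
    rw [h2]
    nlinarith [mul_le_mul_of_nonneg_right hV' hq]
  exact_mod_cast h3

end Pool.Agent.P.MP_e94e4b_nt.OA
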