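import Pool.Agent.P.MP_e94e4b_nt.OA.If

/-! Step GUP. -/

namespace Pool.Agent.P.MP_e94e4b_nt.OA

open Polynomial Finset Pool.Agent.P.MP_8be758_nt.C2
open scoped Classical

theorem GUP_geo (R : ℕ) : ∑ j ∈ Icc 1 R, 1 / (2 : ℝ) ^ j ≤ 1 - 1 / 2 ^ R := by
  induction R with
  | zero => simp
  | succ n ih =>
    rw [sum_Icc_succ_top (by omega)]
    have : 1 / (2 : ℝ) ^ n = 2 * (1 / 2 ^ (n + 1)) := by rw [pow_succ]; field_simp
    linarith

theorem GUP_harm (R : ℕ) : ∑ j ∈ Icc 1 R, 1 / (j : ℝ) ≤ 1 + Real.log ((R : ℝ) + 1) := by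
  have h1 := harmonic_le_one_add_log R
  rw [harmonic_eq_sum_Icc] at h1
  push_cast at h1
  have h2 : Real.log (R : ℝ) ≤ Real.log ((R : ℝ) + 1) := by
    rcases Nat.eq_zero_or_pos R with rfl | h
    · simp
    · exact Real.log_le_log (by exact_mod_cast h) (by linarith)
  simp only [one_div]
  linarith

theorem GUP_sum {k : Type} [Field k] [Finite k] {h : k[X] → ℝ} {r : ℕ} {C1 : ℝ} (hC : 0 ≤ C1)
    (hj : ∀ j : ℕ, 1 ≤ j →
      ∑ P ∈ (prs k j).filter (fun P => P.natDegree = j), (j : ℝ) * h P ≤ r + C1 / 2 ^ j) (R : ℕ) :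
    ∑ P ∈ prs k R, h P ≤ r * (1 + Real.log ((R : ℝ) + 1)) + C1 := by
  have hm : ∀ P ∈ prs k R, P.natDegree ∈ Icc 1 R := fun P hP =>
    mem_Icc.2 ⟨(mem_prs.1 hP).2.1.natDegree_pos, (mem_prs.1 hP).2.2⟩
  rw [← sum_fiberwise_of_maps_to hm]
  have h1 : ∀ j ∈ Icc 1 R, ∑ P ∈ (prs k R).filter (fun P => P.natDegree = j), h P ≤
      r * (1 / (j : ℝ)) + C1 * (1 / 2 ^ j) := by
    intro j hjm
    obtain ⟨j1, j2⟩ := mem_Icc.1 hjm
    have e : (prs k R).filter (fun P => P.natDegree = j) =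
        (prs k j).filter (fun P => P.natDegree = j) := by
      ext P
      simp only [mem_filter, mem_prs]
      constructor
      · rintro ⟨⟨a, b, _⟩, d⟩; exact ⟨⟨a, b, d.le⟩, d⟩
      · rintro ⟨⟨a, b, _⟩, d⟩; exact ⟨⟨a, b, d.le.trans j2⟩, d⟩
    have h2 := hj j j1
    rw [← mul_sum] at h2
    rw [e]
    have j0 : (1 : ℝ) ≤ j := by exact_mod_cast j1
    have h3 : C1 / 2 ^ j ≤ j * (C1 * (1 / 2 ^ j)) := by
      rw [mul_one_div]
      exact le_mul_of_one_le_left (by positivity) j0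
    have h4 : (j : ℝ) * (r * (1 / (j : ℝ))) = r := by field_simp
    refine le_of_mul_le_mul_left ?_ (show (0 : ℝ) < j by linarith)
    rw [mul_add, h4]
    linarith
  refine (sum_le_sum h1).trans ?_
  rw [sum_add_distrib, ← mul_sum, ← mul_sum]
  have h5 := GUP_geo R
  have h6 : (0 : ℝ) ≤ 1 / 2 ^ R := by positivity
  have h7 := mul_le_mul_of_nonneg_left (GUP_harm R) (Nat.cast_nonneg (α := ℝ) r)
  have h8 := mul_le_mul_of_nonneg_left (show ∑ j ∈ Icc 1 R, 1 / (2 : ℝ) ^ j ≤ 1 by linarith) hC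
  linarith

theorem p_GUP :
    S_GUP := by
  intro r C1 hC
  refine ⟨Real.exp (r + C1), Real.one_le_exp (by positivity), ?_⟩
  intro k _ _ h h0 hj R
  have hp : ∀ P ∈ prs k R, 0 ≤ h P := fun P hP => h0 P (mem_prs.1 hP).1 (mem_prs.1 hP).2.1
  have hl : ∀ l ∈ (prs k R).powerset, 0 ≤ ∏ P ∈ l, h P := fun l hl =>
    prod_nonneg fun P hP => hp P (mem_powerset.1 hl hP)
  constructor
  · have he : (∅ : Finset k[X]) ∈ Ls k R := mem_Ls.2 ⟨by simp, by simp [dg]⟩
    have := single_le_sum (s := Ls k R) (f := fun l : Finset k[X] => ∏ P ∈ l, h P)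
      (fun l hl' => hl l (mem_filter.1 hl').1) he
    rw [prod_empty] at this
    exact this
  · have h1 : Gh h R ≤ ∑ l ∈ (prs k R).powerset, ∏ P ∈ l, h P :=
      sum_le_sum_of_subset_of_nonneg (filter_subset _ _) fun l hl' _ => hl l hl'
    have h2 : ∑ l ∈ (prs k R).powerset, ∏ P ∈ l, h P = ∏ P ∈ prs k R, (1 + h P) :=
      (prod_one_add _).symm
    have h3 : ∏ P ∈ prs k R, (1 + h P) ≤ Real.exp (∑ P ∈ prs k R, h P) := by
      rw [Real.exp_sum]
      refine prod_le_prod (fun P hP => by linarith [hp P hP]) fun P _ => ?_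
      linarith [Real.add_one_le_exp (h P)]
    have h4 := Real.exp_le_exp.2 (GUP_sum hC hj R)
    have h5 : Real.exp (r * (1 + Real.log ((R : ℝ) + 1)) + C1) =
        Real.exp (r + C1) * ((R : ℝ) + 1) ^ r := by
      have : (r : ℝ) * (1 + Real.log ((R : ℝ) + 1)) + C1 =
          (r + C1) + r * Real.log ((R : ℝ) + 1) := by ring
      rw [this, Real.exp_add (r + C1), Real.exp_nat_mul, Real.exp_log (by positivity)]
    linarith

end Pool.Agent.P.MP_e94e4b_nt.OA
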