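import Pool.Agent.P.MP_e94e4b_nt.OA.If

/-! Step HK. -/

namespace Pool.Agent.P.MP_e94e4b_nt.OA

open Polynomial Finset Pool.Agent.P.MP_8be758_nt.C2
open scoped Classical

theorem HK_real {p r Q T : ℝ} (h0 : 0 ≤ p) (h1 : p ≤ r) (h2 : p + 1 ≤ Q) (h3 : 0 < T)
    (h4 : T ≤ Q) : Q * (p / (Q - p)) ≤ r + r ^ 2 * (r + 1) / T := by
  have hD : 0 < Q - p := by linarith
  have e : Q * (p / (Q - p)) = p + p ^ 2 / (Q - p) := by field_simp; ring
  have h5 : T ≤ (r + 1) * (Q - p) := by nlinarith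
  have h6 : p ^ 2 ≤ r ^ 2 := by gcongr
  have h7 : p ^ 2 / (Q - p) ≤ r ^ 2 * (r + 1) / T := by
    rw [div_le_div_iff₀ hD h3]
    calc p ^ 2 * T ≤ r ^ 2 * ((r + 1) * (Q - p)) := by gcongr
      _ = _ := by ring
  linarith

theorem p_HK :
    S_HK := by
  intro r
  refine ⟨(r : ℝ) ^ 2 * (r + 1), by positivity, fun k _ _ bad hA d hd => ?_⟩
  set I := (prs k d).filter (fun P => P.natDegree = d) with hI
  have hm : ∀ P ∈ I, P.Monic ∧ Irreducible P ∧ P.natDegree = d := fun P hP =>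
    ⟨(mem_prs.1 (mem_filter.1 hP).1).1, (mem_prs.1 (mem_filter.1 hP).1).2.1, (mem_filter.1 hP).2⟩
  have hc : (d : ℝ) * I.card ≤ (Nat.card k : ℝ) ^ d := by exact_mod_cast TB4_card I hd hm
  have hq : (2 : ℝ) ≤ Nat.card k := by exact_mod_cast (two_le_card : 2 ≤ Nat.card k)
  have hT : (2 : ℝ) ^ d ≤ (Nat.card k : ℝ) ^ d := by gcongr
  have hQ : (0 : ℝ) < (Nat.card k : ℝ) ^ d := by positivity
  have hB : (0 : ℝ) ≤ r + (r : ℝ) ^ 2 * (r + 1) / 2 ^ d := by positivity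
  have hp : ∀ P ∈ I, (d : ℝ) * hb bad P ≤
      d * ((r + (r : ℝ) ^ 2 * (r + 1) / 2 ^ d) / (Nat.card k : ℝ) ^ d) := by
    intro P hP
    obtain ⟨h1, h2, h3⟩ := hm P hP
    refine mul_le_mul_of_nonneg_left ?_ (Nat.cast_nonneg _)
    rw [le_div_iff₀ hQ, mul_comm, hb, h3]
    refine HK_real (Nat.cast_nonneg _) (by exact_mod_cast (hA P h1 h2).2.1) ?_ (by positivity) hT
    have := (hA P h1 h2).2.2
    rw [h3] at this
    exact_mod_cast this
  refine (sum_le_sum hp).trans ?_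
  rw [sum_const, nsmul_eq_mul, ← mul_assoc, mul_comm (I.card : ℝ), ← mul_div_assoc,
    div_le_iff₀ hQ, mul_comm]
  exact mul_le_mul_of_nonneg_left hc hB

end Pool.Agent.P.MP_e94e4b_nt.OA
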