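import Pool.Agent.P.MP_e94e4b_nt.OA.If

/-! Step ORTH. -/

namespace Pool.Agent.P.MP_e94e4b_nt.OA

open Polynomial Finset Pool.Agent.P.MP_8be758_nt.C2
open scoped Classical

theorem ORTH_split {k : Type} [Field k] [Finite k] (W : k[X]) (hW : W ≠ 0) (L : ℕ)
    (hL : W.natDegree ≤ L) (F : k[X] → ℝ) :
    ∑ z ∈ low k L, F z =
      ∑ r ∈ low k W.natDegree, ∑ y ∈ low k (L - W.natDegree), F (r + W * y) := by
  rw [← sum_product']
  symm
  refine sum_bij (fun p _ => p.1 + W * p.2) ?_ ?_ ?_ (fun _ _ => rfl)
  · intro p hp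
    obtain ⟨h1, h2⟩ := mem_product.1 hp
    exact add_mem_low (low_mono hL h1) (mul_mem_low h2 (by omega))
  · intro p hp p' hp' h
    obtain ⟨h1, -⟩ := mem_product.1 hp
    obtain ⟨h1', -⟩ := mem_product.1 hp'
    have e : p.1 - p'.1 = 0 :=
      eq_zero_of_mem_low (sub_mem_low h1 h1') ⟨p'.2 - p.2, by linear_combination h⟩ le_rfl
    have e1 : p.1 = p'.1 := sub_eq_zero.1 e
    have e2 : p.2 = p'.2 := by
      apply mul_left_cancel₀ hW
      linear_combination h - e
    exact Prod.ext e1 e2
  · intro z hz
    refine ⟨(z % W, z / W), mem_product.2 ⟨mod_mem_low hW z, ?_⟩, EuclideanDomain.mod_add_div z W⟩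
    by_cases h0 : z / W = 0
    · simp only [h0]; exact zero_mem_low _
    · apply mem_low_of_natDegree_lt
      have h1 : W * (z / W) ∈ low k L := by
        have : W * (z / W) = z - z % W := by
          linear_combination EuclideanDomain.mod_add_div z W
        rw [this]
        exact sub_mem_low hz (low_mono hL (mod_mem_low hW z))
      have h2 := natDegree_lt_of_mem_low h1 (mul_ne_zero hW h0)
      rw [natDegree_mul hW h0] at h2
      show (z / W).natDegree < L - W.natDegree
      omega

theorem ORTH_perm {k : Type} [Field k] [Finite k] (V W r : k[X]) (hV : V ≠ 0)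
    (hc : IsCoprime V W) (G : k[X] → ℝ) (hG : ∀ x y, G (x + V * y) = G x) :
    ∑ y ∈ low k V.natDegree, G (r + W * y) = ∑ z ∈ low k V.natDegree, G z := by
  have hinj : Set.InjOn (fun y => (r + W * y) % V) (low k V.natDegree : Set k[X]) := by
    intro y hy y' hy' h
    have h1 := EuclideanDomain.mod_add_div (r + W * y) V
    have h2 := EuclideanDomain.mod_add_div (r + W * y') V
    simp only at h
    have hd : V ∣ W * (y - y') :=
      ⟨(r + W * y) / V - (r + W * y') / V, by linear_combination h2 - h1 + h⟩
    exact sub_eq_zero.1 (eq_zero_of_mem_low (sub_mem_low (mem_coe.1 hy) (mem_coe.1 hy'))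
      (hc.dvd_of_dvd_mul_left hd) le_rfl)
  have him : (low k V.natDegree).image (fun y => (r + W * y) % V) = low k V.natDegree := by
    apply eq_of_subset_of_card_le
    · intro z hz
      obtain ⟨y, -, rfl⟩ := mem_image.1 hz
      exact mod_mem_low hV _
    · rw [card_image_of_injOn hinj]
  conv_rhs => rw [← him, sum_image hinj]
  refine sum_congr rfl fun y _ => ?_
  rw [← hG ((r + W * y) % V) ((r + W * y) / V), EuclideanDomain.mod_add_div]

theorem p_ORTH :
    S_ORTH := by
  intro k _ _ s
  induction s using Finset.induction_on with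
  | empty =>
    intro φ L _ _ _
    simp [card_low]
  | insert P s hP ih =>
    intro φ L h1 h2 h3
    have hPm := h1 P (mem_insert_self _ _)
    have hd : P.natDegree + dg s ≤ L := by
      rw [dg, sum_insert hP] at h3
      exact h3
    have hq : (0 : ℝ) < Nat.card k := by
      have := two_le_card (k := k)
      exact_mod_cast (by omega : 0 < Nat.card k)
    rw [ORTH_split P hPm.1.ne_zero L (by omega), prod_insert hP]
    have key : ∀ r ∈ low k P.natDegree,
        ∑ y ∈ low k (L - P.natDegree), ∏ Q ∈ insert P s, φ Q (r + P * y) =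
        φ P r * ((Nat.card k : ℝ) ^ (L - P.natDegree) *
          ∏ Q ∈ s, (∑ z ∈ low k Q.natDegree, φ Q z) / (Nat.card k : ℝ) ^ Q.natDegree) := by
      intro r _
      have e := ih (fun Q y => φ Q (r + P * y)) (L - P.natDegree)
        (fun Q hQ => h1 Q (mem_insert_of_mem hQ))
        (fun Q hQ x y => by
          have := h2 Q (mem_insert_of_mem hQ) (r + P * x) (P * y)
          rw [← this]; congr 1; ring) (by omega)
      have e2 : ∀ Q ∈ s, (∑ z ∈ low k Q.natDegree, φ Q (r + P * z)) / (Nat.card k : ℝ) ^ Q.natDegree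
          = (∑ z ∈ low k Q.natDegree, φ Q z) / (Nat.card k : ℝ) ^ Q.natDegree := by
        intro Q hQ
        have hQm := h1 Q (mem_insert_of_mem hQ)
        have hc : IsCoprime Q P := by
          rw [hQm.2.coprime_iff_not_dvd]
          intro hdv
          have := eq_of_monic_of_associated hQm.1 hPm.1
            (hQm.2.associated_of_dvd hPm.2 hdv)
          exact hP (this ▸ hQ)
        rw [ORTH_perm Q P r hQm.1.ne_zero hc (φ Q) (h2 Q (mem_insert_of_mem hQ))]
      rw [prod_congr rfl e2] at e
      rw [← e, mul_sum]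
      refine sum_congr rfl fun y _ => ?_
      rw [prod_insert hP, h2 P (mem_insert_self _ _)]
    rw [sum_congr rfl key, ← sum_mul]
    have hp : (Nat.card k : ℝ) ^ L = (Nat.card k : ℝ) ^ (L - P.natDegree) *
        (Nat.card k : ℝ) ^ P.natDegree := by
      rw [← pow_add]; congr 1; omega
    rw [hp]
    field_simp

end Pool.Agent.P.MP_e94e4b_nt.OA
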