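import Pool.Agent.P.MP_e94e4b_nt.OA.If

/-! Step PNT. -/

namespace Pool.Agent.P.MP_e94e4b_nt.OA

open Polynomial Finset Pool.Agent.P.MP_8be758_nt.C2
open scoped Classical
open UniqueFactorizationMonoid

theorem PNT_geo (q : ℕ) (hq : 2 ≤ q) (n : ℕ) : ∑ d ∈ range (n + 1), q ^ d ≤ 2 * q ^ n := by
  induction n with
  | zero => simp
  | succ n ih => rw [sum_range_succ, pow_succ]; nlinarith [Nat.zero_le (q ^ n)]

theorem p_PNT :
    S_PNT := by
  intro k _ _ j hj
  have hq : 1 < Nat.card k := two_le_card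
  have := Fintype.ofFinite k
  obtain ⟨f, hf⟩ : ∃ f : k[X], f = X ^ Nat.card k ^ j - X := ⟨_, rfl⟩
  have h0 : f ≠ 0 := hf ▸ FiniteField.X_pow_card_pow_sub_X_ne_zero k (by omega) hq
  have hd : f.natDegree = Nat.card k ^ j :=
    hf ▸ FiniteField.X_pow_card_pow_sub_X_natDegree_eq k (by omega) hq
  have hs : Squarefree f := by
    obtain ⟨p, hp⟩ := CharP.exists k
    obtain ⟨n, hpp, hn⟩ := FiniteField.card k p
    rw [hf]
    refine (galois_poly_separable p _ ?_).squarefree
    rw [Nat.card_eq_fintype_card, hn]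
    exact (dvd_pow_self p n.ne_zero).trans (dvd_pow_self _ (by omega))
  have hnd := (squarefree_iff_nodup_normalizedFactors h0).1 hs
  have h2 : (normalizedFactors f).prod.natDegree = f.natDegree :=
    natDegree_eq_of_degree_eq (degree_eq_degree_of_associated (prod_normalizedFactors h0))
  rw [natDegree_multiset_prod _ (zero_notMem_normalizedFactors f), hd] at h2
  obtain ⟨T, hT⟩ : ∃ T : Finset k[X], T = ⟨normalizedFactors f, hnd⟩ := ⟨_, rfl⟩
  have h3 : ∑ P ∈ T, P.natDegree = Nat.card k ^ j := by rw [hT]; exact h2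
  have hm : ∀ P ∈ T, P.Monic ∧ Irreducible P ∧ P.natDegree ∣ j := fun P hP => by
    rw [hT] at hP
    obtain ⟨a, b, c⟩ := (Polynomial.mem_normalizedFactors_iff h0).1 hP
    exact ⟨b, a, a.natDegree_dvd_iff_dvd_X_pow_card_pow_sub_X.2 (hf ▸ c)⟩
  rw [← sum_filter_add_sum_filter_not T (fun P => P.natDegree = j)] at h3
  have a1 : ∑ P ∈ T.filter (fun P => P.natDegree = j), P.natDegree ≤
      j * ((prs k j).filter fun P => P.natDegree = j).card := by
    rw [sum_congr rfl fun P hP => (mem_filter.1 hP).2, sum_const, smul_eq_mul, mul_comm]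
    refine Nat.mul_le_mul_left _ (card_le_card fun P hP => ?_)
    obtain ⟨b1, b2⟩ := mem_filter.1 hP
    exact mem_filter.2 ⟨mem_prs.2 ⟨(hm P b1).1, (hm P b1).2.1, b2.le⟩, b2⟩
  have a2 : ∑ P ∈ T.filter (fun P => ¬ P.natDegree = j), P.natDegree ≤
      ∑ d ∈ range (j / 2 + 1), Nat.card k ^ d := by
    rw [← sum_fiberwise_of_maps_to (t := range (j / 2 + 1)) (g := fun P : k[X] => P.natDegree)
      fun P hP => by
        obtain ⟨b1, b2⟩ := mem_filter.1 hP
        obtain ⟨c, hc⟩ := (hm P b1).2.2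
        have : 2 ≤ c := by
          rcases c with _ | _ | c
          · omega
          · omega
          · omega
        have := Nat.mul_le_mul_left P.natDegree this
        exact mem_range.2 (by omega)]
    refine sum_le_sum fun d _ => ?_
    rw [sum_congr rfl fun P hP => (mem_filter.1 hP).2, sum_const, smul_eq_mul, mul_comm]
    rcases Nat.eq_zero_or_pos d with rfl | h
    · simp
    exact TB4_card _ h fun P hP => ⟨(hm P (mem_filter.1 (mem_filter.1 hP).1).1).1,
      (hm P (mem_filter.1 (mem_filter.1 hP).1).1).2.1, (mem_filter.1 hP).2⟩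
  have a3 := PNT_geo _ hq (j / 2)
  have a4 : 4 * Nat.card k ^ (j / 2) ≤ Nat.card k ^ j := by
    calc 4 * Nat.card k ^ (j / 2) ≤ Nat.card k ^ 2 * Nat.card k ^ (j / 2) :=
          Nat.mul_le_mul_right _ (by nlinarith)
      _ ≤ _ := by rw [← pow_add]; exact Nat.pow_le_pow_right (by omega) (by omega)
  rw [mul_assoc]
  omega

end Pool.Agent.P.MP_e94e4b_nt.OA
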