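import Pool.Agent.P.MP_e94e4b_nt.OA.If

/-! Step PT. -/

namespace Pool.Agent.P.MP_e94e4b_nt.OA

open Polynomial Finset Pool.Agent.P.MP_8be758_nt.C2
open scoped Classical

theorem p_PT :
    S_PT := by
  intro k _ _ r bad R J z hA hJ
  set b := (prs k R).filter fun P => bad P z with hb0
  have hf : ∀ l ∈ Ls k R, 0 ≤ ∏ P ∈ l, hb bad P := fun l hl =>
    prod_nonneg fun P hP => hb_nonneg hA ((mem_Ls.1 hl).1 P hP).1 ((mem_Ls.1 hl).1 P hP).2
  have hm : ∀ l ∈ Ls k R, l \ b ∈ Ls k R := fun l hl =>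
    mem_Ls.2 ⟨fun P hP => (mem_Ls.1 hl).1 P (mem_sdiff.1 hP).1,
      (sum_le_sum_of_subset (f := fun P : k[X] => P.natDegree) sdiff_subset).trans
        (mem_Ls.1 hl).2⟩
  have h1 : ∀ l ∈ Ls k R, |∏ P ∈ l, xi bad P z| = ∏ P ∈ l \ b, hb bad P := by
    intro l hl
    have hs : l ⊆ prs k R := mem_powerset.1 (mem_filter.1 hl).1
    rw [abs_prod, ← prod_sdiff (inter_subset_left (s₂ := b)), sdiff_inter_self_left,
      prod_eq_one (s := l ∩ b), mul_one]
    · refine prod_congr rfl fun P hP => ?_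
      obtain ⟨h2, h3⟩ := mem_sdiff.1 hP
      have h4 : ¬ bad P z := fun h => h3 (mem_filter.2 ⟨hs h2, h⟩)
      rw [xi, if_neg h4, abs_of_nonneg
        (hb_nonneg hA ((mem_Ls.1 hl).1 P h2).1 ((mem_Ls.1 hl).1 P h2).2)]
    · intro P hP
      rw [xi, if_pos (mem_filter.1 (mem_inter.1 hP).2).2, abs_neg, abs_one]
  have h2 : ∑ l ∈ Ls k R, ∏ P ∈ l \ b, hb bad P ≤
      ∑ x ∈ Ls k R ×ˢ b.powerset, ∏ P ∈ x.1, hb bad P := by
    rw [← sum_image (s := Ls k R) (g := fun l => (l \ b, l ∩ b))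
      (f := fun x : Finset k[X] × Finset k[X] => ∏ P ∈ x.1, hb bad P)]
    · refine sum_le_sum_of_subset_of_nonneg (fun x hx => ?_) fun x hx _ =>
        hf _ (mem_product.1 hx).1
      obtain ⟨l, hl, rfl⟩ := mem_image.1 hx
      exact mem_product.2 ⟨hm l hl, mem_powerset.2 inter_subset_right⟩
    · intro l _ l' _ h
      have e := Prod.ext_iff.1 h
      simp only at e
      rw [← sdiff_union_inter l b, ← sdiff_union_inter l' b, e.1, e.2]
  have h3 : ∑ x ∈ Ls k R ×ˢ b.powerset, ∏ P ∈ x.1, hb bad P = 2 ^ b.card * Gh (hb bad) R := by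
    rw [sum_product, Gh, mul_sum]
    refine sum_congr rfl fun l _ => ?_
    simp [card_powerset]
  have hG : 0 ≤ Gh (hb bad) R := sum_nonneg hf
  have h4 : |Lam bad R z| ≤ 2 ^ J * Gh (hb bad) R := by
    refine (abs_sum_le_sum_abs _ _).trans ?_
    rw [sum_congr rfl h1]
    exact h2.trans (h3.le.trans
      (mul_le_mul_of_nonneg_right (pow_le_pow_right₀ one_le_two hJ) hG))
  calc Lam bad R z ^ 2 = |Lam bad R z| ^ 2 := (sq_abs _).symm
    _ ≤ (2 ^ J * Gh (hb bad) R) ^ 2 := pow_le_pow_left₀ (abs_nonneg _) h4 2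
    _ = 4 ^ J * Gh (hb bad) R ^ 2 := by
      rw [mul_pow, ← pow_mul, mul_comm J 2, pow_mul]; norm_num

end Pool.Agent.P.MP_e94e4b_nt.OA
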