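import Pool.Agent.P.MP_e94e4b_nt.OA.If

/-! Step QF. -/

namespace Pool.Agent.P.MP_e94e4b_nt.OA

open Polynomial Finset Pool.Agent.P.MP_8be758_nt.C2
open scoped Classical

section QF

variable {k : Type} [Field k] [Finite k] {r : ℕ} {bad : k[X] → k[X] → Prop}

theorem QF_sum (P : k[X]) (a b : ℝ) :
    ∑ z ∈ low k P.natDegree, (if bad P z then a else b) =
      rho bad P * a + ((Nat.card k : ℝ) ^ P.natDegree - rho bad P) * b := by
  have h := card_filter_add_card_filter_not (s := low k P.natDegree) (fun z => bad P z)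
  rw [card_low] at h
  have h' : (((low k P.natDegree).filter fun z => ¬ bad P z).card : ℝ) =
      (Nat.card k : ℝ) ^ P.natDegree - rho bad P := by
    rw [eq_sub_iff_add_eq', rho]; exact_mod_cast h
  rw [sum_ite, sum_const, sum_const, nsmul_eq_mul, nsmul_eq_mul, h', rho]

theorem QF_pos (h : Adm r bad) {P : k[X]} (h1 : P.Monic) (h2 : Irreducible P) :
    0 < (Nat.card k : ℝ) ^ P.natDegree - rho bad P := by
  have : (rho bad P : ℝ) < (Nat.card k : ℝ) ^ P.natDegree := by exact_mod_cast (h P h1 h2).2.2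
  linarith

theorem QF_one (h : Adm r bad) {P : k[X]} (h1 : P.Monic) (h2 : Irreducible P) :
    ∑ z ∈ low k P.natDegree, xi bad P z = 0 := by
  have h0 := (QF_pos h h1 h2).ne'
  unfold xi
  rw [QF_sum, hb]
  field_simp
  ring

theorem QF_two (h : Adm r bad) {P : k[X]} (h1 : P.Monic) (h2 : Irreducible P) :
    (∑ z ∈ low k P.natDegree, xi bad P z * xi bad P z) / (Nat.card k : ℝ) ^ P.natDegree =
      hb bad P := by
  have h0 := (QF_pos h h1 h2).ne'
  have h3 : (Nat.card k : ℝ) ^ P.natDegree ≠ 0 :=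
    pow_ne_zero _ (Nat.cast_ne_zero.2 Nat.card_pos.ne')
  have e : ∀ z, xi bad P z * xi bad P z = if bad P z then 1 else hb bad P * hb bad P := fun z => by
    unfold xi; split_ifs <;> simp
  simp only [e]
  rw [QF_sum, hb]
  field_simp
  ring

omit [Finite k] in
theorem QF_dg (s t : Finset k[X]) : dg (s ∪ t) ≤ dg s + dg t := by
  unfold dg
  rw [← sum_union_inter]
  exact Nat.le_add_right _ _

theorem QF_pair (hORTH : S_ORTH) (h : Adm r bad) {s0 l l' : Finset k[X]} {R L : ℕ}
    (hs : ∀ P ∈ s0, P.Monic ∧ Irreducible P) (hl : l ∈ Ls k R) (hl' : l' ∈ Ls k R)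
    (hd : Disjoint s0 l) (hd' : Disjoint s0 l') (hL : 2 * R + dg s0 ≤ L) :
    ∑ z ∈ low k L, (∏ P ∈ s0, if bad P z then (1 : ℝ) else 0) *
        ((∏ P ∈ l, xi bad P z) * ∏ P ∈ l', xi bad P z) =
      (Nat.card k : ℝ) ^ L * (∏ P ∈ s0, (rho bad P : ℝ) / (Nat.card k : ℝ) ^ P.natDegree) *
        if l = l' then ∏ P ∈ l, hb bad P else 0 := by
  obtain ⟨p1, d1⟩ := mem_Ls.1 hl
  obtain ⟨p2, d2⟩ := mem_Ls.1 hl'
  have hp : ∀ P ∈ s0 ∪ (l ∪ l'), P.Monic ∧ Irreducible P := fun P hP => by
    rcases mem_union.1 hP with a | a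
    · exact hs P a
    · exact (mem_union.1 a).elim (p1 P) (p2 P)
  have key := hORTH k (s0 ∪ (l ∪ l'))
    (fun P z => (if P ∈ s0 then (if bad P z then (1 : ℝ) else 0) else 1) *
      ((if P ∈ l then xi bad P z else 1) * if P ∈ l' then xi bad P z else 1)) L hp
    (fun P hP x y => by
      simp only [xi, (h P (hp P hP).1 (hp P hP).2).1 x y])
    (((QF_dg _ _).trans (Nat.add_le_add_left (QF_dg _ _) _)).trans (by omega))
  have i0 : (s0 ∪ (l ∪ l')) ∩ s0 = s0 := inter_eq_right.2 subset_union_left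
  have i1 : (s0 ∪ (l ∪ l')) ∩ l = l := inter_eq_right.2 (subset_union_left.trans subset_union_right)
  have i2 : (s0 ∪ (l ∪ l')) ∩ l' = l' :=
    inter_eq_right.2 (subset_union_right.trans subset_union_right)
  simp only [prod_mul_distrib, prod_ite_mem, i0, i1, i2] at key
  rw [key, mul_assoc]
  congr 1
  split_ifs with e
  · subst e
    rw [union_self, prod_union hd]
    congr 1
    · refine prod_congr rfl fun P hP => ?_
      simp only [if_pos hP, if_neg (disjoint_left.1 hd hP), mul_one]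
      rw [QF_sum, mul_one, mul_zero, add_zero]
    · refine prod_congr rfl fun P hP => ?_
      simp only [if_pos hP, if_neg (disjoint_right.1 hd hP), one_mul]
      exact QF_two h (p1 P hP).1 (p1 P hP).2
  · rw [mul_zero]
    by_cases c : l ⊆ l'
    · obtain ⟨P, a, b⟩ := not_subset.1 fun c' : l' ⊆ l => e (Subset.antisymm c c')
      refine prod_eq_zero (i := P) (mem_union_right _ (mem_union_right _ a)) ?_
      simp only [if_pos a, if_neg b, if_neg (disjoint_right.1 hd' a), one_mul]
      rw [QF_one h (p2 P a).1 (p2 P a).2, zero_div]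
    · obtain ⟨P, a, b⟩ := not_subset.1 c
      refine prod_eq_zero (i := P) (mem_union_right _ (mem_union_left _ a)) ?_
      simp only [if_pos a, if_neg b, if_neg (disjoint_right.1 hd a), one_mul, mul_one]
      rw [QF_one h (p1 P a).1 (p1 P a).2, zero_div]

end QF

theorem p_QF (hORTH : S_ORTH) :
    S_QF := by
  intro k _ _ r bad A s0 R L h hA hs hd hL
  simp only [pow_two, sum_mul_sum]
  simp only [mul_sum]
  rw [sum_comm]
  refine sum_congr rfl fun l hl => ?_
  rw [sum_comm, sum_congr rfl fun l' hl' =>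
    QF_pair hORTH h hs (hA hl) (hA hl') (hd l hl) (hd l' hl') hL, ← mul_sum, sum_ite_eq, if_pos hl]

end Pool.Agent.P.MP_e94e4b_nt.OA
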