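import Pool.Agent.P.MP_e94e4b_nt.OA.If

/-! Step REG. -/

namespace Pool.Agent.P.MP_e94e4b_nt.OA

open Polynomial Finset Pool.Agent.P.MP_8be758_nt.C2
open scoped Classical

theorem REG_band {k : Type} [Field k] [Finite k] {h : k[X] → ℝ} {κ : ℝ} (R a d : ℕ)
    (h0 : ∀ P : k[X], P.Monic → Irreducible P → 0 ≤ h P)
    (h1 : ∀ j : ℕ, 1 ≤ j →
      ∑ P ∈ (prs k j).filter (fun P => P.natDegree = j), (j : ℝ) * h P ≤ κ) :
    ∑ P ∈ (prs k R).filter (fun P => R < a + P.natDegree + d ∧ a + P.natDegree ≤ R),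
      (P.natDegree : ℝ) * h P ≤ d * κ := by
  have n0 : ∀ j : ℕ, ∀ P ∈ (prs k j).filter (fun P => P.natDegree = j), 0 ≤ (j : ℝ) * h P :=
    fun j P hP => by
      have := mem_prs.1 (mem_filter.1 hP).1
      exact mul_nonneg (Nat.cast_nonneg _) (h0 P this.1 this.2.1)
  have k0 : 0 ≤ κ := (sum_nonneg (n0 1)).trans (h1 1 le_rfl)
  rw [← sum_fiberwise_of_maps_to (g := natDegree) (t := Ioc (R - a - d) (R - a)) fun P hP => by
    obtain ⟨b, c⟩ := mem_filter.1 hP
    have := (mem_prs.1 b).2.1.natDegree_pos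
    rw [mem_Ioc]; omega]
  refine (sum_le_card_nsmul _ _ κ fun j hj => ?_).trans ?_
  · refine le_trans ?_ (h1 j (by have := mem_Ioc.1 hj; omega))
    rw [sum_congr rfl (g := fun P => (j : ℝ) * h P) fun P hP => by rw [(mem_filter.1 hP).2]]
    refine sum_le_sum_of_subset_of_nonneg (fun P hP => ?_) fun P hP _ => n0 j P hP
    obtain ⟨b, c⟩ := mem_filter.1 hP
    have e := mem_prs.1 (mem_filter.1 b).1
    exact mem_filter.2 ⟨mem_prs.2 ⟨e.1, e.2.1, c.le⟩, c⟩
  · rw [nsmul_eq_mul, Nat.card_Ioc]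
    exact mul_le_mul_of_nonneg_right (Nat.cast_le.2 (by omega)) k0

theorem p_REG :
    S_REG := by
  intro k _ _ h κ R d h0 h1 hd
  have p0 : ∀ l ∈ Ls k R, 0 ≤ ∏ P ∈ l, h P := fun l hl =>
    prod_nonneg fun P hP => h0 P ((mem_Ls.1 hl).1 P hP).1 ((mem_Ls.1 hl).1 P hP).2
  have e1 : ∀ l : Finset k[X], ∀ P ∈ l, dg (l.erase P) + P.natDegree = dg l := fun l P hP =>
    sum_erase_add l _ hP
  calc _ ≤ ∑ l ∈ (Ls k R).filter (fun l => R < dg l + d),
        2 * ∑ P ∈ l, (∏ Q ∈ l.erase P, h Q) * (P.natDegree * h P) := by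
        rw [mul_sum]
        refine sum_le_sum fun l hl => ?_
        obtain ⟨a, b⟩ := mem_filter.1 hl
        rw [sum_congr rfl (g := fun P => (P.natDegree : ℝ) * ∏ Q ∈ l, h Q) fun P hP => by
          rw [← prod_erase_mul l h hP]; ring, ← sum_mul, ← mul_assoc]
        refine mul_le_mul_of_nonneg_right ?_ (p0 l a)
        have c : R ≤ 2 * dg l := by omega
        rw [dg] at c
        exact_mod_cast c
    _ ≤ 2 * ∑ l ∈ Ls k R, ∑ P ∈ (prs k R).filter
        (fun P => R < dg l + P.natDegree + d ∧ dg l + P.natDegree ≤ R),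
        (∏ Q ∈ l, h Q) * (P.natDegree * h P) := by
        rw [← mul_sum, sum_sigma', sum_sigma']
        refine mul_le_mul_of_nonneg_left ?_ two_pos.le
        rw [← sum_image (g := fun x : (_ : Finset k[X]) × k[X] =>
          (⟨x.1.erase x.2, x.2⟩ : (_ : Finset k[X]) × k[X]))
          (f := fun x => (∏ Q ∈ x.1, h Q) * (x.2.natDegree * h x.2)) ?_]
        · refine sum_le_sum_of_subset_of_nonneg (fun y hy => ?_) fun x hx _ => ?_
          · obtain ⟨x, hx, rfl⟩ := mem_image.1 hy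
            obtain ⟨a, b⟩ := mem_sigma.1 hx
            obtain ⟨a, c⟩ := mem_filter.1 a
            obtain ⟨a, a'⟩ := mem_Ls.1 a
            have e := e1 _ _ b
            refine mem_sigma.2 ⟨mem_Ls.2 ⟨fun P hP => a P (mem_of_mem_erase hP), ?_⟩,
              mem_filter.2 ⟨mem_prs.2 ⟨(a _ b).1, (a _ b).2, ?_⟩, ?_⟩⟩ <;> dsimp only <;> omega
          · obtain ⟨a, b⟩ := mem_sigma.1 hx
            have c := mem_prs.1 (mem_filter.1 b).1
            exact mul_nonneg (p0 _ a) (mul_nonneg (Nat.cast_nonneg _) (h0 _ c.1 c.2.1))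
        · rintro ⟨l, P⟩ hx ⟨l', P'⟩ hy e
          obtain ⟨e, e'⟩ := Sigma.mk.inj e
          obtain rfl : P = P' := eq_of_heq e'
          obtain rfl : l = l' := (insert_erase (mem_sigma.1 hx).2).symm.trans
            ((congrArg (insert P) e).trans (insert_erase (mem_sigma.1 hy).2))
          rfl
    _ ≤ _ := by
        rw [Gh, mul_assoc 2, mul_assoc 2, mul_sum _ _ (d * κ)]
        refine mul_le_mul_of_nonneg_left (sum_le_sum fun l hl => ?_) two_pos.le
        rw [← mul_sum, mul_comm]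
        exact mul_le_mul_of_nonneg_right (REG_band R (dg l) d h0 h1) (p0 l hl)

end Pool.Agent.P.MP_e94e4b_nt.OA
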