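import Pool.Agent.P.MP_e94e4b_nt.OA.If

/-! Step SIEVE. -/

namespace Pool.Agent.P.MP_e94e4b_nt.OA

open Polynomial Finset Pool.Agent.P.MP_8be758_nt.C2
open scoped Classical

section
variable {k : Type} [Field k] [Finite k]

theorem SIEVE_lam {bad : k[X] → k[X] → Prop} {R : ℕ} {P z : k[X]} (h1 : P.Monic)
    (h2 : Irreducible P) (hz : bad P z) :
    Lam bad R z = ∑ l ∈ (Ls k R).filter (fun l => P ∉ l ∧ R < dg l + P.natDegree),
      ∏ Q ∈ l, xi bad Q z := by
  have e1 : ∑ l ∈ (Ls k R).filter (fun l => P ∈ l), ∏ Q ∈ l, xi bad Q z =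
      -∑ l ∈ (Ls k R).filter (fun l => P ∉ l ∧ ¬ R < dg l + P.natDegree),
        ∏ Q ∈ l, xi bad Q z := by
    rw [← sum_neg_distrib]
    symm
    refine sum_bij' (fun l _ => insert P l) (fun l _ => l.erase P) ?_ ?_ ?_ ?_ ?_
    · intro l hl
      obtain ⟨a1, a2, a3⟩ := mem_filter.1 hl
      refine mem_filter.2 ⟨mem_Ls.2 ⟨fun Q hQ => ?_, ?_⟩, mem_insert_self _ _⟩
      · rcases mem_insert.1 hQ with rfl | hQ
        · exact ⟨h1, h2⟩
        · exact (mem_Ls.1 a1).1 Q hQ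
      · rw [dg, sum_insert a2]
        rw [dg] at a3
        omega
    · intro l hl
      obtain ⟨a1, a2⟩ := mem_filter.1 hl
      have a3 := (mem_Ls.1 a1).2
      have a4 : dg (l.erase P) + P.natDegree = dg l :=
        sum_erase_add l (fun Q : k[X] => Q.natDegree) a2
      exact mem_filter.2 ⟨mem_Ls.2 ⟨fun Q hQ => (mem_Ls.1 a1).1 Q (mem_of_mem_erase hQ),
        by omega⟩, notMem_erase _ _, by omega⟩
    · intro l hl
      exact erase_insert (mem_filter.1 hl).2.1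
    · intro l hl
      exact insert_erase (mem_filter.1 hl).2
    · intro l hl
      rw [prod_insert (mem_filter.1 hl).2.1, xi, if_pos hz]
      ring
  have e2 := sum_filter_add_sum_filter_not ((Ls k R).filter fun l => P ∉ l)
    (fun l => R < dg l + P.natDegree) fun l => ∏ Q ∈ l, xi bad Q z
  rw [filter_filter, filter_filter] at e2
  rw [Lam, ← sum_filter_add_sum_filter_not (Ls k R) (fun l => P ∈ l), e1, ← e2]
  ring

theorem SIEVE_one (hQF : S_QF) (hREG : S_REG) {r R L : ℕ} {bad : k[X] → k[X] → Prop} {κ : ℝ}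
    (hA : Adm r bad) (hL : 3 * R ≤ L)
    (hκ : ∀ j : ℕ, 1 ≤ j →
      ∑ P ∈ (prs k j).filter (fun P => P.natDegree = j), (j : ℝ) * hb bad P ≤ κ)
    {P : k[X]} (h1 : P.Monic) (h2 : Irreducible P) (hd : 2 * P.natDegree ≤ R) :
    (R : ℝ) * ∑ z ∈ low k L, (if bad P z then (1 : ℝ) else 0) * Lam bad R z ^ 2 ≤
      2 * κ * r * ((Nat.card k : ℝ) ^ L * Gh (hb bad) R) *
        (P.natDegree / (Nat.card k : ℝ) ^ P.natDegree) := by
  have hq : (0 : ℝ) < Nat.card k := by exact_mod_cast Nat.card_pos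
  have a1 := hQF k r bad ((Ls k R).filter fun l => P ∉ l ∧ R < dg l + P.natDegree) {P} R L hA
    (filter_subset _ _) (fun Q hQ => by rw [mem_singleton.1 hQ]; exact ⟨h1, h2⟩)
    (fun l hl => disjoint_singleton_left.2 (mem_filter.1 hl).2.1)
    (by rw [dg, sum_singleton]; omega)
  simp only [prod_singleton] at a1
  have a2 : ∑ z ∈ low k L, (if bad P z then (1 : ℝ) else 0) * Lam bad R z ^ 2 =
      ∑ z ∈ low k L, (if bad P z then (1 : ℝ) else 0) *
        (∑ l ∈ (Ls k R).filter (fun l => P ∉ l ∧ R < dg l + P.natDegree),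
          ∏ Q ∈ l, xi bad Q z) ^ 2 := by
    refine sum_congr rfl fun z _ => ?_
    by_cases hz : bad P z
    · rw [SIEVE_lam h1 h2 hz]
    · rw [if_neg hz, zero_mul, zero_mul]
  have hn : ∀ l ∈ Ls k R, 0 ≤ ∏ Q ∈ l, hb bad Q := fun l hl =>
    prod_nonneg fun Q hQ => hb_nonneg hA ((mem_Ls.1 hl).1 Q hQ).1 ((mem_Ls.1 hl).1 Q hQ).2
  have a3 := hREG k (hb bad) κ R P.natDegree (fun Q a b => hb_nonneg hA a b) hκ hd
  have a4 : ∑ l ∈ (Ls k R).filter (fun l => P ∉ l ∧ R < dg l + P.natDegree), ∏ Q ∈ l, hb bad Q ≤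
      ∑ l ∈ (Ls k R).filter (fun l => R < dg l + P.natDegree), ∏ Q ∈ l, hb bad Q :=
    sum_le_sum_of_subset_of_nonneg (fun l hl => mem_filter.2 ⟨(mem_filter.1 hl).1,
      (mem_filter.1 hl).2.2⟩) fun l hl _ => hn l (mem_filter.1 hl).1
  have a5 : 0 ≤ ∑ l ∈ (Ls k R).filter (fun l => P ∉ l ∧ R < dg l + P.natDegree),
      ∏ Q ∈ l, hb bad Q := sum_nonneg fun l hl => hn l (mem_filter.1 hl).1
  have a6 : (rho bad P : ℝ) ≤ r := by exact_mod_cast (hA P h1 h2).2.1
  rw [a2, a1]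
  set S := ∑ l ∈ (Ls k R).filter (fun l => P ∉ l ∧ R < dg l + P.natDegree), ∏ Q ∈ l, hb bad Q
  have a7 : (R : ℝ) * S ≤ 2 * P.natDegree * κ * Gh (hb bad) R :=
    (mul_le_mul_of_nonneg_left a4 (Nat.cast_nonneg R)).trans a3
  have a8 : (rho bad P : ℝ) * (R * S) ≤ r * (2 * P.natDegree * κ * Gh (hb bad) R) :=
    mul_le_mul a6 a7 (by positivity) (Nat.cast_nonneg r)
  calc (R : ℝ) * ((Nat.card k : ℝ) ^ L * (rho bad P / (Nat.card k : ℝ) ^ P.natDegree) * S)
      = (Nat.card k : ℝ) ^ L / (Nat.card k : ℝ) ^ P.natDegree * (rho bad P * (R * S)) := by ring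
    _ ≤ (Nat.card k : ℝ) ^ L / (Nat.card k : ℝ) ^ P.natDegree *
        (r * (2 * P.natDegree * κ * Gh (hb bad) R)) :=
      mul_le_mul_of_nonneg_left a8 (by positivity)
    _ = _ := by ring

theorem SIEVE_deg (Y : ℕ) :
    ∑ P ∈ prs k Y, (P.natDegree : ℝ) / (Nat.card k : ℝ) ^ P.natDegree ≤ Y := by
  have hq : (0 : ℝ) < Nat.card k := by exact_mod_cast Nat.card_pos
  rw [← sum_fiberwise_of_maps_to (s := prs k Y) (t := Icc 1 Y) (g := fun P => P.natDegree)
    fun P hP => mem_Icc.2 ⟨(mem_prs.1 hP).2.1.natDegree_pos, (mem_prs.1 hP).2.2⟩]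
  refine (sum_le_card_nsmul _ _ 1 fun d hd => ?_).trans (by simp)
  rw [sum_congr rfl (g := fun _ => (d : ℝ) / (Nat.card k : ℝ) ^ d)
    fun P hP => by rw [(mem_filter.1 hP).2], sum_const, nsmul_eq_mul, ← mul_div_assoc,
    div_le_one (by positivity), mul_comm]
  exact_mod_cast TB4_card _ (mem_Icc.1 hd).1 fun P hP =>
    ⟨(mem_prs.1 (mem_filter.1 hP).1).1, (mem_prs.1 (mem_filter.1 hP).1).2.1, (mem_filter.1 hP).2⟩

end

theorem p_SIEVE (hQF : S_QF) (hHK : S_HK) (hREG : S_REG) (hGUP : S_GUP) :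
    S_SIEVE := by
  intro r
  obtain ⟨C1, c0, hC1⟩ := hHK r
  obtain ⟨C, c1, hC⟩ := hGUP r C1 c0
  refine ⟨max C (2 * (r + C1) * r), le_max_of_le_left c1, fun k _ _ bad R L hA hL => ?_⟩
  have hq : (0 : ℝ) < Nat.card k := by exact_mod_cast Nat.card_pos
  obtain ⟨g1, g2⟩ := hC k (hb bad) (fun P a b => hb_nonneg hA a b) (hC1 k bad hA) R
  refine ⟨g1, g2.trans (mul_le_mul_of_nonneg_right (le_max_left _ _) (by positivity)), ?_,
    fun Y hY => ?_⟩
  · have := hQF k r bad (Ls k R) ∅ R L hA Subset.rfl (by simp) (by simp)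
      (by rw [dg, sum_empty]; omega)
    simpa only [prod_empty, one_mul, mul_one, Lam, Gh] using this
  · have hκ : ∀ j : ℕ, 1 ≤ j →
        ∑ P ∈ (prs k j).filter (fun P => P.natDegree = j), (j : ℝ) * hb bad P ≤ r + C1 :=
      fun j hj => (hC1 k bad hA j hj).trans
        (add_le_add le_rfl (div_le_self c0 (one_le_pow₀ one_le_two)))
    have a1 : ∑ z ∈ (low k L).filter (fun z => ∃ P ∈ prs k Y, bad P z), Lam bad R z ^ 2 ≤
        ∑ P ∈ prs k Y, ∑ z ∈ low k L, (if bad P z then (1 : ℝ) else 0) * Lam bad R z ^ 2 := by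
      rw [sum_comm, sum_filter]
      refine sum_le_sum fun z _ => ?_
      have hn : ∀ P ∈ prs k Y, 0 ≤ (if bad P z then (1 : ℝ) else 0) * Lam bad R z ^ 2 :=
        fun P _ => mul_nonneg (by split_ifs <;> norm_num) (pow_two_nonneg _)
      split_ifs with hz
      · obtain ⟨P, hP, hb⟩ := hz
        have := single_le_sum hn hP
        rwa [if_pos hb, one_mul] at this
      · exact sum_nonneg hn
    have a2 : 0 ≤ (Nat.card k : ℝ) ^ L * Gh (hb bad) R := by positivity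
    calc _ ≤ (R : ℝ) * ∑ P ∈ prs k Y, ∑ z ∈ low k L,
          (if bad P z then (1 : ℝ) else 0) * Lam bad R z ^ 2 :=
          mul_le_mul_of_nonneg_left a1 (Nat.cast_nonneg R)
      _ ≤ ∑ P ∈ prs k Y, 2 * (r + C1) * r * ((Nat.card k : ℝ) ^ L * Gh (hb bad) R) *
          (P.natDegree / (Nat.card k : ℝ) ^ P.natDegree) := by
          rw [mul_sum]
          exact sum_le_sum fun P hP => SIEVE_one hQF hREG hA hL hκ (mem_prs.1 hP).1
            (mem_prs.1 hP).2.1 (by have := (mem_prs.1 hP).2.2; omega)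
      _ ≤ 2 * (r + C1) * r * ((Nat.card k : ℝ) ^ L * Gh (hb bad) R) * Y := by
          rw [← mul_sum]
          exact mul_le_mul_of_nonneg_left (SIEVE_deg Y) (by positivity)
      _ = 2 * (r + C1) * r * (Y * ((Nat.card k : ℝ) ^ L * Gh (hb bad) R)) := by ring
      _ ≤ max C (2 * (r + C1) * r) * (Y * ((Nat.card k : ℝ) ^ L * Gh (hb bad) R)) :=
          mul_le_mul_of_nonneg_right (le_max_right _ _) (by positivity)
      _ = _ := by ring

end Pool.Agent.P.MP_e94e4b_nt.OA
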