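import Pool.Agent.P.MP_e94e4b_nt.OA.If

/-! Step TW. -/

namespace Pool.Agent.P.MP_e94e4b_nt.OA

open Polynomial Finset Pool.Agent.P.MP_8be758_nt.C2
open scoped Classical

theorem TW_equiv (k : Type) [Field k] [Finite k] [CharP k 2] :
    ∃ φ : k[X] ≃+* k[X], ∀ z, φ z = fr z :=
  ⟨mapEquiv (frobeniusEquiv k 2), fun _ => rfl⟩

theorem TW_low {k : Type} [Field k] [Finite k] [CharP k 2] {L : ℕ} {z : k[X]} :
    fr z ∈ low k L ↔ z ∈ low k L := by
  rw [mem_low, mem_low, fr, degree_map]

theorem TW_evp {k : Type} [Field k] [Finite k] {m : ℕ} {x : k[X]} (h : x ∈ low k m) :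
    evp x ∈ low k ((m + 1) / 2) := by
  simp only [mem_low, degree_lt_iff_coeff_zero] at h ⊢
  intro j hj
  rw [← coeff_eo_even _ (odp x), eo_evp_odp, h _ (by omega)]

theorem p_TW (hCOREW : S_COREW) :
    S_TW := by
  intro r
  obtain ⟨c1, hc1⟩ : ∃ c1 : ℕ, r ^ 2 + (14 * r + 9) ≤ 2 ^ c1 := ⟨_, Nat.lt_two_pow_self.le⟩
  refine ⟨200 * c1 + 400, ?_⟩
  intro k _ _ _ m R G x Mm t wt hm hn hG ht hr hc hx ⟨g1, V1, P, g2, g3, g4, g5, g6, g7⟩ hR hM hMd
    hw hp
  have h2 : (2 : k[X]) = 0 := CharTwo.two_eq_zero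
  have hq : (2 : ℝ) ≤ Nat.card k := by exact_mod_cast two_le_card (k := k)
  obtain ⟨φ, hφ⟩ := TW_equiv k
  have hV1 : V1 ≠ 0 := by
    rintro rfl
    rw [natDegree_zero] at g5
    omega
  have d1 : (odp x).natDegree = V1.natDegree + P.natDegree := by
    rw [g2, natDegree_mul hV1 g3.ne_zero]
  have d2 := natDegree_le_of_mem_low (TW_evp hx)
  have d3 := natDegree_fr Mm
  have e1 : ∀ z c : k[X], G ^ 2 + (x + z ^ 4) + c ^ 2 =
      eo (fr G + fr c + evp x + fr z ^ 2) (odp x) := fun z c => by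
    conv_lhs => rw [← eo_evp_odp x]
    simp only [eo, map_add, map_pow, expand_fr]; ring
  have key := hCOREW k t (fun c => fr G + fr c + evp x) (odp x) V1 P (fr Mm)
    (fun y => wt (φ.symm y)) G.natDegree r (10 * R + c1) (10 * R + c1) (Lz m) (fun c h => by
      have d4 : (fr c + evp x).natDegree < (fr G).natDegree := by
        have := hc c h
        refine (natDegree_add_le _ _).trans_lt ?_
        rw [natDegree_fr, natDegree_fr]; omega
      rw [add_assoc, natDegree_add_eq_left_of_natDegree_lt d4, natDegree_fr]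
      exact ⟨(hG.map _).add_of_left (degree_lt_degree d4), rfl⟩) ht hr g2 g3 g4
    (fun h => by have := natDegree_le_of_dvd h hV1; omega)
    (fun h => by have := natDegree_le_of_dvd h (fr_ne_zero hM); omega)
    (by omega) (by omega) (by omega) (fun i hi => ⟨g7 i hi, fun j hj h => by
      by_contra h3
      have h4 : i + j ≠ 0 := fun h5 => h3 (by linear_combination h5 - j * h2)
      have h5 : P ∣ fr (i + j) := by
        rw [show fr (i + j) = fr i + fr j from Polynomial.map_add _]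
        convert h using 1
        linear_combination -(fr G + evp x) * h2
      have h6 := natDegree_le_of_dvd h5 (fr_ne_zero h4)
      have h7 := natDegree_add_le i j
      have := hc i hi
      have := hc j hj
      rw [natDegree_fr] at h6
      omega⟩) (fun _ => hw _) (fun y w => by
        simp only [map_add, map_mul, ← hφ, RingEquiv.symm_apply_apply, hp])
    (by unfold Lz; omega) (by unfold Lz; omega) (by unfold Lz; omega) (by omega)
  have e2 : ∑ z ∈ low k (Lz m), wt z * ∏ c ∈ t, mu (G ^ 2 + (x + z ^ 4) + c ^ 2) =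
      ∑ y ∈ low k (Lz m), wt (φ.symm y) * ∏ i ∈ t, mu (eo (fr G + fr i + evp x + y ^ 2) (odp x)) :=
    sum_equiv φ.toEquiv (fun z => by
      rw [RingEquiv.toEquiv_eq_coe, RingEquiv.coe_toEquiv, hφ, TW_low]) fun z _ => by
      simp only [RingEquiv.toEquiv_eq_coe, RingEquiv.coe_toEquiv, RingEquiv.symm_apply_apply]
      simp only [hφ, e1]
  rw [e2]
  refine abs_le.2 (abs_le_of_sq_le_sq' (key.trans ?_) (by positivity))
  rw [div_pow, div_eq_mul_inv _ (_ ^ 2), ← add_div]
  refine mul_le_mul_of_nonneg_left ?_ (by positivity)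
  have h3 : ((r : ℝ) ^ 2 + (14 * r + 9)) ≤ (Nat.card k : ℝ) ^ c1 :=
    le_trans (by exact_mod_cast hc1) (pow_le_pow_left₀ zero_le_two hq c1)
  rw [div_le_iff₀ (by positivity), ← pow_mul, show 5 * R * 2 = 10 * R by ring, pow_add,
    inv_mul_cancel_left₀ (by positivity)]
  exact h3

end Pool.Agent.P.MP_e94e4b_nt.OA
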