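import Pool.Agent.P.MP_e94e4b_nt.OA.TADM
import Pool.Agent.P.MP_e94e4b_nt.OA.TCOREW
import Pool.Agent.P.MP_e94e4b_nt.OA.TEXP
import Pool.Agent.P.MP_e94e4b_nt.OA.TFAM
import Pool.Agent.P.MP_e94e4b_nt.OA.TFIN
import Pool.Agent.P.MP_e94e4b_nt.OA.TGOODV
import Pool.Agent.P.MP_e94e4b_nt.OA.TGOODX
import Pool.Agent.P.MP_e94e4b_nt.OA.TGUP
import Pool.Agent.P.MP_e94e4b_nt.OA.THK
import Pool.Agent.P.MP_e94e4b_nt.OA.TNSQ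
import Pool.Agent.P.MP_e94e4b_nt.OA.TORTH
import Pool.Agent.P.MP_e94e4b_nt.OA.TPNT
import Pool.Agent.P.MP_e94e4b_nt.OA.TPT
import Pool.Agent.P.MP_e94e4b_nt.OA.TQF
import Pool.Agent.P.MP_e94e4b_nt.OA.TREG
import Pool.Agent.P.MP_e94e4b_nt.OA.TSIEVE
import Pool.Agent.P.MP_e94e4b_nt.OA.TTW

/-! The steps put together. -/

namespace Pool.Agent.P.MP_e94e4b_nt.OA

theorem t_FIN : S_FIN :=
  p_FIN (p_FAM (p_SIEVE (p_QF p_ORTH) p_HK p_REG p_GUP) p_PT p_EXP (p_TW p_COREW) p_ADM p_NSQ)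
    (p_GOODX (p_GOODV p_PNT))

end Pool.Agent.P.MP_e94e4b_nt.OA
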