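import Pool.Agent.P.MP_e94e4b_nt.W.Sqf
import Pool.Agent.P.MP_8be758_nt.C2.All

/-! Definitions for tuples of almost primes with prescribed parity. -/

namespace Pool.Agent.P.MP_e94e4b_nt.OA

open Polynomial Finset Pool.Agent.P.MP_8be758_nt.C2
open scoped Classical

variable {k : Type} [Field k] [Finite k]

/-- the monic primes of degree at most `R` -/
noncomputable def prs (k : Type) [Field k] [Finite k] (R : ℕ) : Finset k[X] :=
  (low k (R + 1)).filter fun P => P.Monic ∧ Irreducible P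

/-- the total degree of a set of primes -/
noncomputable def dg (l : Finset k[X]) : ℕ := ∑ P ∈ l, P.natDegree

/-- the sets of monic primes of total degree at most `R` -/
noncomputable def Ls (k : Type) [Field k] [Finite k] (R : ℕ) : Finset (Finset k[X]) :=
  (prs k R).powerset.filter fun l => dg l ≤ R

/-- the Selberg sum -/
noncomputable def Gh (h : k[X] → ℝ) (R : ℕ) : ℝ := ∑ l ∈ Ls k R, ∏ P ∈ l, h P

/-- the number of removed classes modulo `P` -/
noncomputable def rho (bad : k[X] → k[X] → Prop) (P : k[X]) : ℕ :=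
  ((low k P.natDegree).filter fun z => bad P z).card

/-- the local factor of the Selberg sum -/
noncomputable def hb (bad : k[X] → k[X] → Prop) (P : k[X]) : ℝ :=
  (rho bad P : ℝ) / ((Nat.card k : ℝ) ^ P.natDegree - rho bad P)

/-- the local function of mean zero and mean square `hb` -/
noncomputable def xi (bad : k[X] → k[X] → Prop) (P z : k[X]) : ℝ :=
  if bad P z then -1 else hb bad P

/-- the Selberg function -/
noncomputable def Lam (bad : k[X] → k[X] → Prop) (R : ℕ) (z : k[X]) : ℝ :=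
  ∑ l ∈ Ls k R, ∏ P ∈ l, xi bad P z

/-- an admissible system of at most `r` removed classes modulo every prime -/
def Adm (r : ℕ) (bad : k[X] → k[X] → Prop) : Prop :=
  ∀ P : k[X], P.Monic → Irreducible P → (∀ x y, bad P (x + P * y) ↔ bad P x) ∧
    rho bad P ≤ r ∧ rho bad P < Nat.card k ^ P.natDegree

/-- the length of the families of fourth power shifts in a window of length `m` -/
def Lz (m : ℕ) : ℕ := ((m + 1) / 2 + 1) / 2

/-- the odd part of `x` has one very large prime factor, at which the local sums are not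
degenerate -/
def GoodX [CharP k 2] (m : ℕ) (G : k[X]) (t : Finset k[X]) (x : k[X]) : Prop :=
  (odp x).natDegree + 1 = m / 2 ∧ ∃ V1 P : k[X], odp x = V1 * P ∧ P.Monic ∧ Irreducible P ∧
    m / 2 ≤ 10 * V1.natDegree ∧ 5 * V1.natDegree ≤ m / 2 ∧
    ∀ c ∈ t, ¬ P ∣ kap 1 (fr G + fr c + evp x) (odp x)

/-- the target: prescribed Moebius values, and all prime factors of large degree -/
def Tg (K : ℕ) (G : k[X]) (t : Finset k[X]) (σ : k[X] → ℤ) (y : k[X]) : Prop :=
  ∀ c ∈ t, UniqueFactorizationMonoid.moebius (G ^ 2 + y + c ^ 2) = σ c ∧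
    ∀ P : k[X], Irreducible P → P ∣ G ^ 2 + y + c ^ 2 →
      (G ^ 2 + y + c ^ 2).natDegree ≤ K * P.natDegree

theorem mem_prs {R : ℕ} {P : k[X]} :
    P ∈ prs k R ↔ P.Monic ∧ Irreducible P ∧ P.natDegree ≤ R := by
  rw [prs, mem_filter]
  constructor
  · rintro ⟨h1, h2, h3⟩
    exact ⟨h2, h3, Nat.lt_succ_iff.1 (natDegree_lt_of_mem_low h1 h2.ne_zero)⟩
  · rintro ⟨h1, h2, h3⟩
    exact ⟨mem_low_of_natDegree_lt (Nat.lt_succ_of_le h3), h1, h2⟩

theorem mem_Ls {R : ℕ} {l : Finset k[X]} :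
    l ∈ Ls k R ↔ (∀ P ∈ l, P.Monic ∧ Irreducible P) ∧ dg l ≤ R := by
  rw [Ls, mem_filter, mem_powerset]
  constructor
  · rintro ⟨h1, h2⟩
    exact ⟨fun P hP => ⟨(mem_prs.1 (h1 hP)).1, (mem_prs.1 (h1 hP)).2.1⟩, h2⟩
  · rintro ⟨h1, h2⟩
    exact ⟨fun P hP => mem_prs.2 ⟨(h1 P hP).1, (h1 P hP).2,
      (single_le_sum (f := fun P : k[X] => P.natDegree) (fun _ _ => Nat.zero_le _) hP).trans h2⟩, h2⟩

theorem hb_nonneg {r : ℕ} {bad : k[X] → k[X] → Prop} (h : Adm r bad) {P : k[X]} (h1 : P.Monic)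
    (h2 : Irreducible P) : 0 ≤ hb bad P := by
  have : (rho bad P : ℝ) < (Nat.card k : ℝ) ^ P.natDegree := by exact_mod_cast (h P h1 h2).2.2
  exact div_nonneg (Nat.cast_nonneg _) (by linarith)

theorem hb_le {r : ℕ} {bad : k[X] → k[X] → Prop} (h : Adm r bad) {P : k[X]} (h1 : P.Monic)
    (h2 : Irreducible P) : hb bad P ≤ (Nat.card k : ℝ) ^ P.natDegree := by
  have : (rho bad P : ℝ) + 1 ≤ (Nat.card k : ℝ) ^ P.natDegree := by
    exact_mod_cast (h P h1 h2).2.2
  have h0 : (0 : ℝ) ≤ rho bad P := Nat.cast_nonneg _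
  rw [hb, div_le_iff₀ (by linarith)]
  nlinarith

end Pool.Agent.P.MP_e94e4b_nt.OA
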