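import Pool.Agent.P.MP_e94e4b_nt.OA.Defs

/-! The steps, as statements. -/

namespace Pool.Agent.P.MP_e94e4b_nt.OA

open Polynomial Finset Pool.Agent.P.MP_8be758_nt.C2
open scoped Classical

-- deps:
def S_ORTH : Prop :=
  ∀ (k : Type) [Field k] [Finite k] (s : Finset k[X]) (φ : k[X] → k[X] → ℝ) (L : ℕ),
    (∀ P ∈ s, P.Monic ∧ Irreducible P) → (∀ P ∈ s, ∀ x y, φ P (x + P * y) = φ P x) → dg s ≤ L →
    ∑ z ∈ low k L, ∏ P ∈ s, φ P z = (Nat.card k : ℝ) ^ L *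
      ∏ P ∈ s, (∑ z ∈ low k P.natDegree, φ P z) / (Nat.card k : ℝ) ^ P.natDegree

-- deps: ORTH
def S_QF : Prop :=
  ∀ (k : Type) [Field k] [Finite k] (r : ℕ) (bad : k[X] → k[X] → Prop) (A : Finset (Finset k[X]))
    (s0 : Finset k[X]) (R L : ℕ), Adm r bad → A ⊆ Ls k R → (∀ P ∈ s0, P.Monic ∧ Irreducible P) →
    (∀ l ∈ A, Disjoint s0 l) → 2 * R + dg s0 ≤ L →
    ∑ z ∈ low k L, (∏ P ∈ s0, if bad P z then (1 : ℝ) else 0) *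
        (∑ l ∈ A, ∏ P ∈ l, xi bad P z) ^ 2 =
      (Nat.card k : ℝ) ^ L * (∏ P ∈ s0, (rho bad P : ℝ) / (Nat.card k : ℝ) ^ P.natDegree) *
        ∑ l ∈ A, ∏ P ∈ l, hb bad P

-- deps:
def S_HK : Prop :=
  ∀ r : ℕ, ∃ C1 : ℝ, 0 ≤ C1 ∧ ∀ (k : Type) [Field k] [Finite k] (bad : k[X] → k[X] → Prop),
    Adm r bad → ∀ d : ℕ, 1 ≤ d →
    ∑ P ∈ (prs k d).filter (fun P => P.natDegree = d), (d : ℝ) * hb bad P ≤ r + C1 / 2 ^ d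

-- deps:
def S_REG : Prop :=
  ∀ (k : Type) [Field k] [Finite k] (h : k[X] → ℝ) (κ : ℝ) (R d : ℕ),
    (∀ P : k[X], P.Monic → Irreducible P → 0 ≤ h P) →
    (∀ j : ℕ, 1 ≤ j → ∑ P ∈ (prs k j).filter (fun P => P.natDegree = j), (j : ℝ) * h P ≤ κ) →
    2 * d ≤ R →
    (R : ℝ) * ∑ l ∈ (Ls k R).filter (fun l => R < dg l + d), ∏ P ∈ l, h P ≤ 2 * d * κ * Gh h R

-- deps:
def S_GUP : Prop :=
  ∀ (r : ℕ) (C1 : ℝ), 0 ≤ C1 → ∃ C : ℝ, 1 ≤ C ∧ ∀ (k : Type) [Field k] [Finite k] (h : k[X] → ℝ),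
    (∀ P : k[X], P.Monic → Irreducible P → 0 ≤ h P) →
    (∀ j : ℕ, 1 ≤ j →
      ∑ P ∈ (prs k j).filter (fun P => P.natDegree = j), (j : ℝ) * h P ≤ r + C1 / 2 ^ j) →
    ∀ R : ℕ, 1 ≤ Gh h R ∧ Gh h R ≤ C * ((R : ℝ) + 1) ^ r

-- deps: QF HK REG GUP
def S_SIEVE : Prop :=
  ∀ r : ℕ, ∃ C : ℝ, 1 ≤ C ∧ ∀ (k : Type) [Field k] [Finite k] (bad : k[X] → k[X] → Prop)
    (R L : ℕ), Adm r bad → 3 * R ≤ L →
    1 ≤ Gh (hb bad) R ∧ Gh (hb bad) R ≤ C * ((R : ℝ) + 1) ^ r ∧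
    ∑ z ∈ low k L, Lam bad R z ^ 2 = (Nat.card k : ℝ) ^ L * Gh (hb bad) R ∧
    ∀ Y : ℕ, 2 * Y ≤ R →
      (R : ℝ) * ∑ z ∈ (low k L).filter (fun z => ∃ P ∈ prs k Y, bad P z), Lam bad R z ^ 2 ≤
        C * Y * ((Nat.card k : ℝ) ^ L * Gh (hb bad) R)

-- deps:
def S_PT : Prop :=
  ∀ (k : Type) [Field k] [Finite k] (r : ℕ) (bad : k[X] → k[X] → Prop) (R J : ℕ) (z : k[X]),
    Adm r bad → ((prs k R).filter fun P => bad P z).card ≤ J →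
    Lam bad R z ^ 2 ≤ 4 ^ J * Gh (hb bad) R ^ 2

-- deps:
def S_EXP : Prop :=
  ∀ (k : Type) [Field k] [Finite k] (r : ℕ) (bad : k[X] → k[X] → Prop) (R L : ℕ) (F : k[X] → ℝ)
    (B : ℝ), Adm r bad →
    (∀ (a : k[X] → ℝ) (Mm : k[X]), Mm ≠ 0 → Mm.natDegree ≤ 2 * R → (∀ z, |a z| ≤ 1) →
      (∀ z y, a (z + Mm * y) = a z) → |∑ z ∈ low k L, a z * F z| ≤ B) →
    |∑ z ∈ low k L, Lam bad R z ^ 2 * F z| ≤ (Nat.card k : ℝ) ^ (4 * R + 2) * B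

-- deps:
def S_COREW : Prop :=
  ∀ (k : Type) [Field k] [Finite k] [CharP k 2] (t : Finset k[X]) (U : k[X] → k[X])
    (V V1 P Mm : k[X]) (wt : k[X] → ℝ) (n r H D1 L0 : ℕ),
    (∀ i ∈ t, (U i).Monic ∧ (U i).natDegree = n) → t.Nonempty → t.card ≤ r →
    V = V1 * P → P.Monic → Irreducible P → ¬ P ∣ V1 → ¬ P ∣ Mm → V.natDegree < n →
    H ≤ P.natDegree → 2 * D1 + 1 ≤ P.natDegree →
    (∀ i ∈ t, ¬ P ∣ kap 1 (U i) V ∧ ∀ j ∈ t, P ∣ U i + U j → i = j) →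
    (∀ y, |wt y| ≤ 1) → (∀ y w, wt (y + Mm * w) = wt y) →
    V1.natDegree + Mm.natDegree + H < L0 → 2 * L0 ≤ n + 1 →
    V.natDegree + 2 * D1 + 1 ≤ 2 * L0 + V1.natDegree → 6 * (Mm.natDegree + H) + 8 * D1 ≤ n →
    (∑ y ∈ low k L0, wt y * ∏ i ∈ t, mu (eo (U i + y ^ 2) V)) ^ 2 ≤
      ((Nat.card k : ℝ) ^ L0) ^ 2 *
        (r ^ 2 / (Nat.card k : ℝ) ^ H + (14 * r + 9) / (Nat.card k : ℝ) ^ D1)

-- deps: COREW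
def S_TW : Prop :=
  ∀ r : ℕ, ∃ m0 : ℕ, ∀ (k : Type) [Field k] [Finite k] [CharP k 2] (m R : ℕ) (G x Mm : k[X])
    (t : Finset k[X]) (wt : k[X] → ℝ), m0 ≤ m → m ≤ 2 * G.natDegree → G.Monic → t.Nonempty →
    t.card ≤ r → (∀ c ∈ t, 4 * c.natDegree ≤ m) → x ∈ low k m → GoodX m G t x → 500 * R ≤ m →
    Mm ≠ 0 → Mm.natDegree ≤ 2 * R → (∀ z, |wt z| ≤ 1) → (∀ z y, wt (z + Mm * y) = wt z) →
    |∑ z ∈ low k (Lz m), wt z * ∏ c ∈ t, mu (G ^ 2 + (x + z ^ 4) + c ^ 2)| ≤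
      (Nat.card k : ℝ) ^ Lz m / (Nat.card k : ℝ) ^ (5 * R)

-- deps:
def S_ADM : Prop :=
  ∀ (k : Type) [Field k] [Finite k] [CharP k 2] (r : ℕ) (t : Finset k[X]) (G x : k[X]),
    t.card ≤ r → (∀ P : k[X], Irreducible P → ∃ y : k[X], ∀ c ∈ t, ¬ P ∣ y + c ^ 2) →
    Adm r (fun P z => ∃ c ∈ t, P ∣ G ^ 2 + (x + z ^ 4) + c ^ 2)

-- deps:
def S_NSQ : Prop :=
  ∀ (k : Type) [Field k] [Finite k] [CharP k 2] (G x c : k[X]) (Y L : ℕ), derivative x ≠ 0 →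
    Y ≤ L →
    Y * ((low k L).filter fun z => ∃ P : k[X], P.Monic ∧ Irreducible P ∧ Y < P.natDegree ∧
        P ^ 2 ∣ G ^ 2 + (x + z ^ 4) + c ^ 2).card * Nat.card k ^ Y ≤
      x.natDegree * Nat.card k ^ L

-- deps: SIEVE PT EXP TW ADM NSQ
def S_FAM : Prop :=
  ∀ r u : ℕ, ∃ (K : ℕ) (c0 : ℝ) (m0 : ℕ), 0 < c0 ∧
    ∀ (k : Type) [Field k] [Finite k] [CharP k 2] (m : ℕ) (G x : k[X]) (t : Finset k[X])
      (σ : k[X] → ℤ), m0 ≤ m → m ≤ 2 * G.natDegree → G.natDegree ≤ u * m → G.Monic →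
      t.card ≤ r → (∀ c ∈ t, 4 * c.natDegree ≤ m) →
      (∀ P : k[X], Irreducible P → ∃ y : k[X], ∀ c ∈ t, ¬ P ∣ y + c ^ 2) →
      (∀ c ∈ t, σ c = 1 ∨ σ c = -1) → x ∈ low k m → GoodX m G t x →
      c0 * (Nat.card k : ℝ) ^ Lz m / (m : ℝ) ^ r ≤
        ((low k (Lz m)).filter fun z => Tg K G t σ (x + z ^ 4)).card

-- deps:
def S_PNT : Prop :=
  ∀ (k : Type) [Field k] [Finite k] (j : ℕ), 4 ≤ j →
    Nat.card k ^ j ≤ 2 * j * ((prs k j).filter fun P => P.natDegree = j).card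

-- deps: PNT
def S_GOODV : Prop :=
  ∀ (k : Type) [Field k] [Finite k] (N : ℕ), 40 ≤ N →
    Nat.card k ^ N ≤ 100 * ((low k N).filter fun V => V.natDegree + 1 = N ∧ ∃ V1 P : k[X],
      V = V1 * P ∧ P.Monic ∧ Irreducible P ∧ N ≤ 10 * V1.natDegree ∧
        5 * V1.natDegree ≤ N).card

-- deps: GOODV
def S_GOODX : Prop :=
  ∀ r : ℕ, ∃ m0 : ℕ, ∀ (k : Type) [Field k] [Finite k] [CharP k 2] (m : ℕ) (G : k[X])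
    (t : Finset k[X]), m0 ≤ m → t.card ≤ r →
    Nat.card k ^ m ≤ 200 * ((low k m).filter fun x => GoodX m G t x).card

-- deps: FAM GOODX
def S_FIN : Prop :=
  ∀ r u : ℕ, ∃ (K : ℕ) (c0 : ℝ) (m0 : ℕ), 0 < c0 ∧
    ∀ (k : Type) [Field k] [Finite k] [CharP k 2] (m : ℕ) (G : k[X]) (t : Finset k[X])
      (σ : k[X] → ℤ), m0 ≤ m → m ≤ 2 * G.natDegree → G.natDegree ≤ u * m → G.Monic →
      t.card ≤ r → (∀ c ∈ t, 4 * c.natDegree ≤ m) →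
      (∀ P : k[X], Irreducible P → ∃ y : k[X], ∀ c ∈ t, ¬ P ∣ y + c ^ 2) →
      (∀ c ∈ t, σ c = 1 ∨ σ c = -1) →
      c0 * (Nat.card k : ℝ) ^ m / (m : ℝ) ^ r ≤ ((low k m).filter fun x => Tg K G t σ x).card

end Pool.Agent.P.MP_e94e4b_nt.OA
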