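import Pool.Agent.P.MP_e94e4b_nt.OA.If

/-! Step ADM. -/

namespace Pool.Agent.P.MP_e94e4b_nt.OA

open Polynomial Finset Pool.Agent.P.MP_8be758_nt.C2
open scoped Classical

theorem ADM_root {k : Type} [Field k] [Finite k] [CharP k 2] {P : k[X]} (hP : Irreducible P)
    (y : k[X]) : ∃ z ∈ low k P.natDegree, P ∣ z ^ 4 - y := by
  haveI := Fact.mk hP
  haveI := finite_adjoinRoot hP.ne_zero
  haveI := charP_adjoinRoot (P := P)
  obtain ⟨u, hu⟩ := exists_sqrt (AdjoinRoot.mk P y)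
  obtain ⟨v, rfl⟩ := exists_sqrt u
  obtain ⟨z, rfl⟩ := AdjoinRoot.mk_surjective v
  refine ⟨z % P, mod_mem_low hP.ne_zero z, AdjoinRoot.mk_eq_mk.1 ?_⟩
  have : AdjoinRoot.mk P (z % P) = AdjoinRoot.mk P z :=
    AdjoinRoot.mk_eq_mk.2 (by rw [EuclideanDomain.mod_eq_sub_mul_div]; simp)
  rw [map_pow, this, ← hu, ← pow_mul]

theorem ADM_le {k : Type} [Field k] [Finite k] {bad : k[X] → k[X] → Prop} {P : k[X]}
    {t : Finset k[X]} (f : k[X] → k[X]) (h1 : ∀ z, bad P z → f z ∈ t)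
    (h2 : ∀ z w, bad P z → bad P w → f z = f w → P ∣ z - w) : rho bad P ≤ t.card :=
  card_le_card_of_injOn f (fun z hz => h1 z (mem_filter.1 hz).2) fun z hz w hw e =>
    sub_eq_zero.1 (eq_zero_of_mem_low (sub_mem_low (mem_filter.1 hz).1 (mem_filter.1 hw).1)
      (h2 z w (mem_filter.1 hz).2 (mem_filter.1 hw).2 e) le_rfl)

theorem ADM_lt {k : Type} [Field k] [Finite k] {bad : k[X] → k[X] → Prop} {P z : k[X]}
    (h1 : z ∈ low k P.natDegree) (h2 : ¬ bad P z) : rho bad P < Nat.card k ^ P.natDegree :=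
  card_low (k := k) _ ▸ card_lt_card (filter_ssubset.2 ⟨z, h1, h2⟩)

theorem p_ADM :
    S_ADM := by
  intro k _ _ _ r t G x ht hy P h1 h2
  refine ⟨fun z y => exists_congr fun c => and_congr_right fun _ => dvd_iff_dvd_of_dvd_sub ?_,
    le_trans ?_ ht, ?_⟩
  · have := sub_dvd_pow_sub_pow (z + P * y) z 4
    rw [add_sub_cancel_left] at this
    convert (Dvd.intro y rfl).trans this using 1
    ring
  · choose! f hf hf' using fun z (hz : ∃ c ∈ t, P ∣ G ^ 2 + (x + z ^ 4) + c ^ 2) => hz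
    refine ADM_le f hf fun z w k2 k4 e => h2.prime.dvd_of_dvd_pow (n := 2 ^ 2) ?_
    rw [sub_pow_char_pow]
    convert dvd_sub (hf' z k2) (e ▸ hf' w k4) using 1
    ring
  · obtain ⟨y, hy⟩ := hy P h2
    obtain ⟨z, k1, k2⟩ := ADM_root h2 (y - G ^ 2 - x)
    refine ADM_lt k1 fun ⟨c, k3, k4⟩ => hy c k3 ?_
    convert dvd_sub k4 k2 using 1
    ring

end Pool.Agent.P.MP_e94e4b_nt.OA
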