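import Pool.Agent.P.MP_e94e4b_nt.OA.If

/-! Step NSQ. -/

namespace Pool.Agent.P.MP_e94e4b_nt.OA

open Polynomial Finset Pool.Agent.P.MP_8be758_nt.C2
open scoped Classical

theorem NSQ_sum {k : Type} [Field k] {D : k[X]} (hD : D ≠ 0) (S : Finset k[X])
    (hS : ∀ P ∈ S, P.Monic ∧ Irreducible P ∧ P ∣ D) : ∑ P ∈ S, P.natDegree ≤ D.natDegree := by
  rw [← natDegree_prod_of_monic S (fun P => P) fun P hP => (hS P hP).1]
  refine natDegree_le_of_dvd (prod_dvd_of_coprime (fun P hP Q hQ hne => ?_)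
    fun P hP => (hS P hP).2.2) hD
  refine ((hS P hP).2.1.coprime_iff_not_dvd).2 fun h => hne ?_
  exact eq_of_monic_of_associated (hS P hP).1 (hS Q hQ).1
    ((hS P hP).2.1.associated_of_dvd (hS Q hQ).2.1 h)

theorem NSQ_cls {k : Type} [Field k] [Finite k] [CharP k 2] {P : k[X]} (hP : Irreducible P)
    (G x c : k[X]) (L : ℕ) :
    ((low k L).filter fun z => P ∣ G ^ 2 + (x + z ^ 4) + c ^ 2).card ≤
      Nat.card k ^ (L - P.natDegree) := by
  rcases ((low k L).filter fun z => P ∣ G ^ 2 + (x + z ^ 4) + c ^ 2).eq_empty_or_nonempty with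
    h | ⟨z0, h0⟩
  · simp [h]
  refine le_trans (card_le_card fun z hz => ?_)
    (W.cls (α := z0) (β := 1) hP hP.not_dvd_one L)
  refine mem_filter.2 ⟨(mem_filter.1 hz).1, hP.prime.dvd_of_dvd_pow (n := 4) ?_⟩
  have h2 : (2 : k[X]) = 0 := CharTwo.two_eq_zero
  have e : (z0 + 1 * z) ^ 4 = (G ^ 2 + (x + z ^ 4) + c ^ 2) - (G ^ 2 + (x + z0 ^ 4) + c ^ 2) := by
    linear_combination (z0 ^ 4 + 2 * z0 ^ 3 * z + 3 * z0 ^ 2 * z ^ 2 + 2 * z0 * z ^ 3) * h2
  rw [e]
  exact dvd_sub (mem_filter.1 hz).2 (mem_filter.1 h0).2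

theorem NSQ_der {k : Type} [Field k] [CharP k 2] {P G x c z : k[X]}
    (h : P ^ 2 ∣ G ^ 2 + (x + z ^ 4) + c ^ 2) : P ∣ derivative x := by
  obtain ⟨u, hu⟩ := h
  have h2 : (2 : k[X]) = 0 := CharTwo.two_eq_zero
  have h1 := congrArg derivative hu
  simp only [pow_succ, pow_zero, one_mul, derivative_add, derivative_mul] at h1
  refine ⟨P * derivative u, ?_⟩
  linear_combination h1 + (P * derivative P * u - G * derivative G - c * derivative c -
    2 * z ^ 3 * derivative z) * h2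

theorem p_NSQ :
    S_NSQ := by
  intro k _ _ _ G x c Y L hx hY
  obtain ⟨S, hS⟩ : ∃ S : Finset k[X], S = (low k (x.natDegree + 1)).filter fun P =>
    P.Monic ∧ Irreducible P ∧ Y < P.natDegree ∧ P ∣ derivative x := ⟨_, rfl⟩
  have hm : ∀ P ∈ S, P.Monic ∧ Irreducible P ∧ Y < P.natDegree ∧ P ∣ derivative x :=
    fun P hP => by rw [hS] at hP; exact (mem_filter.1 hP).2
  have hd : (derivative x).natDegree ≤ x.natDegree := (natDegree_derivative_le x).trans (by omega)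
  have h1 : Y * S.card ≤ x.natDegree := by
    refine le_trans ?_ ((NSQ_sum hx S fun P hP =>
      ⟨(hm P hP).1, (hm P hP).2.1, (hm P hP).2.2.2⟩).trans hd)
    rw [mul_comm, ← smul_eq_mul]
    exact card_nsmul_le_sum S _ Y fun P hP => (hm P hP).2.2.1.le
  have h2 : ((low k L).filter fun z => ∃ P : k[X], P.Monic ∧ Irreducible P ∧ Y < P.natDegree ∧
      P ^ 2 ∣ G ^ 2 + (x + z ^ 4) + c ^ 2).card ≤ S.card * Nat.card k ^ (L - Y) := by
    refine le_trans (card_le_card (t := S.biUnion fun P =>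
      (low k L).filter fun z => P ∣ G ^ 2 + (x + z ^ 4) + c ^ 2) fun z hz => ?_)
      (card_biUnion_le_card_mul _ _ _ fun P hP => (NSQ_cls (hm P hP).2.1 G x c L).trans
        (Nat.pow_le_pow_right Nat.card_pos (by have := (hm P hP).2.2.1; omega)))
    obtain ⟨hz1, P, a, b, d, e⟩ := mem_filter.1 hz
    refine mem_biUnion.2 ⟨P, ?_, mem_filter.2 ⟨hz1, (dvd_pow_self P two_ne_zero).trans e⟩⟩
    rw [hS]
    exact mem_filter.2 ⟨mem_low_of_natDegree_lt
      (Nat.lt_succ_of_le ((natDegree_le_of_dvd (NSQ_der e) hx).trans hd)), a, b, d, NSQ_der e⟩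
  calc _ ≤ Y * (S.card * Nat.card k ^ (L - Y)) * Nat.card k ^ Y :=
        Nat.mul_le_mul_right _ (Nat.mul_le_mul_left _ h2)
    _ = Y * S.card * Nat.card k ^ L := by
        rw [← mul_assoc, mul_assoc (Y * S.card), ← pow_add, Nat.sub_add_cancel hY]
    _ ≤ _ := Nat.mul_le_mul_right _ h1

end Pool.Agent.P.MP_e94e4b_nt.OA
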